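import Mathlib

set_option autoImplicit false

/-!
Signed combinations of indicator functions of balls with common centre, whose plane integrals are
supported in a thin shell (odd dimension).
-/

namespace Pool.Agent.H293R3.NA

open Finset

/-- coefficients of the finite difference of order `q + 1` -/
noncomputable def cf (q j : ℕ) : ℝ := (-1 : ℝ) ^ j * ((q + 1).choose j : ℝ)

lemma sum_cf (q : ℕ) : ∑ j ∈ range (q + 2), cf q j = 0 := by
  have h := Int.alternating_sum_range_choose_of_ne (n := q + 1) (by omega)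
  unfold cf
  exact_mod_cast h

lemma cf_zero (q : ℕ) : cf q 0 = 1 := by simp [cf]

lemma sum_abs_cf (q : ℕ) : ∑ j ∈ range (q + 2), |cf q j| = 2 ^ (q + 1) := by
  have h := Nat.sum_range_choose (q + 1)
  have h1 : ∀ j ∈ range (q + 2), |cf q j| = ((q + 1).choose j : ℝ) := by
    intro j _
    unfold cf
    rw [abs_mul, abs_pow, abs_neg, abs_one, one_pow, one_mul, Nat.abs_cast]
  rw [Finset.sum_congr rfl h1]
  exact_mod_cast h

/-- `∑ (-1)^j C(q+1,j) (t + j)^q = 0` -/
lemma sum_cf_pow (q : ℕ) (t : ℝ) : ∑ j ∈ range (q + 2), cf q j * (t + j) ^ q = 0 := by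
  have h := congrFun (fwdDiff_iter_pow_eq_zero_of_lt (R := ℝ) (j := q) (n := q + 1) (by omega)) t
  rw [fwdDiff_iter_eq_sum_shift] at h
  have h2 : ∑ j ∈ range (q + 2), cf q j * (t + j) ^ q =
      (-1 : ℝ) ^ (q + 1) * ∑ k ∈ range (q + 1 + 1),
        ((-1 : ℤ) ^ (q + 1 - k) * (q + 1).choose k) • (t + k • (1 : ℝ)) ^ q := by
    rw [Finset.mul_sum]
    refine Finset.sum_congr rfl fun j hj => ?_
    rw [mem_range] at hj
    have hj' : j ≤ q + 1 := by omega
    rw [zsmul_eq_mul]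
    push_cast
    rw [nsmul_eq_mul, mul_one]
    unfold cf
    have e : (-1 : ℝ) ^ (q + 1) * (-1) ^ (q + 1 - j) = (-1) ^ j := by
      rw [← pow_add]
      have : q + 1 + (q + 1 - j) = 2 * (q + 1 - j) + j := by omega
      rw [this, pow_add, pow_mul]
      simp
    rw [← e]
    ring
  rw [h2, h]
  simp

/-- truncated power -/
noncomputable def tp (q : ℕ) (τ : ℝ) : ℝ := if 0 ≤ τ then τ ^ q else 0

/-- the finite difference of the truncated power -/
noncomputable def dtp (q : ℕ) (h τ : ℝ) : ℝ := ∑ j ∈ range (q + 2), cf q j * tp q (τ + j * h)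

lemma dtp_of_nonneg (q : ℕ) (h τ : ℝ) (hh : 0 < h) (hτ : 0 ≤ τ) : dtp q h τ = 0 := by
  unfold dtp
  have h1 : ∀ j ∈ range (q + 2), cf q j * tp q (τ + j * h) = h ^ q * (cf q j * (τ / h + j) ^ q) := by
    intro j _
    unfold tp
    rw [if_pos (by positivity)]
    have : τ + j * h = h * (τ / h + j) := by field_simp
    rw [this, mul_pow]
    ring
  rw [Finset.sum_congr rfl h1, ← Finset.mul_sum, sum_cf_pow, mul_zero]

lemma dtp_of_lt (q : ℕ) (h τ : ℝ) (hh : 0 < h) (hτ : τ < -((q + 1 : ℝ) * h)) : dtp q h τ = 0 := by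
  unfold dtp
  refine Finset.sum_eq_zero fun j hj => ?_
  rw [mem_range] at hj
  have hj' : (j : ℝ) ≤ q + 1 := by
    have : j ≤ q + 1 := by omega
    exact_mod_cast this
  unfold tp
  rw [if_neg]
  · simp
  · push Not
    have : (j : ℝ) * h ≤ (q + 1) * h := mul_le_mul_of_nonneg_right hj' hh.le
    linarith

lemma abs_dtp_le (q : ℕ) (h τ : ℝ) (hh : 0 < h) (hτ : τ < 0) :
    |dtp q h τ| ≤ 2 ^ (q + 1) * ((q + 1 : ℝ) * h) ^ q := by
  unfold dtp
  calc |∑ j ∈ range (q + 2), cf q j * tp q (τ + j * h)|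
      ≤ ∑ j ∈ range (q + 2), |cf q j * tp q (τ + j * h)| := Finset.abs_sum_le_sum_abs _ _
    _ ≤ ∑ j ∈ range (q + 2), |cf q j| * ((q + 1 : ℝ) * h) ^ q := by
        refine Finset.sum_le_sum fun j hj => ?_
        rw [abs_mul]
        refine mul_le_mul_of_nonneg_left ?_ (abs_nonneg _)
        rw [mem_range] at hj
        have hj' : (j : ℝ) ≤ q + 1 := by
          have : j ≤ q + 1 := by omega
          exact_mod_cast this
        unfold tp
        split_ifs with h0
        · rw [abs_of_nonneg (by positivity)]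
          refine pow_le_pow_left₀ h0 ?_ q
          have : (j : ℝ) * h ≤ (q + 1) * h := mul_le_mul_of_nonneg_right hj' hh.le
          linarith
        · rw [abs_zero]; positivity
    _ = 2 ^ (q + 1) * ((q + 1 : ℝ) * h) ^ q := by
        rw [← Finset.sum_mul, sum_abs_cf]

section Psi

variable {E : Type*} [NormedAddCommGroup E]

/-- signed combination of indicators of balls -/
noncomputable def Psi (q : ℕ) (ρ h : ℝ) (z : E) : ℝ :=
  ∑ j ∈ range (q + 2), cf q j * (if ‖z‖ ^ 2 ≤ ρ + j * h then 1 else 0)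

lemma Psi_of_le (q : ℕ) (ρ h : ℝ) (z : E) (hh : 0 < h) (hz : ‖z‖ ^ 2 ≤ ρ) : Psi q ρ h z = 0 := by
  unfold Psi
  rw [← sum_cf q]
  refine Finset.sum_congr rfl fun j _ => ?_
  rw [if_pos, mul_one]
  have : 0 ≤ (j : ℝ) * h := by positivity
  linarith

lemma Psi_shell (q : ℕ) (ρ h : ℝ) (z : E) (hh : 0 < h) (hz : ρ < ‖z‖ ^ 2) (hz' : ‖z‖ ^ 2 ≤ ρ + h) :
    Psi q ρ h z = -1 := by
  unfold Psi
  have h0 := sum_cf q
  rw [Finset.sum_range_succ'] at h0 ⊢
  rw [if_neg (by push_cast; push Not; linarith), mul_zero, add_zero]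
  rw [cf_zero] at h0
  have h1 : ∑ k ∈ range (q + 1), cf q (k + 1) * (if ‖z‖ ^ 2 ≤ ρ + ((k + 1 : ℕ) : ℝ) * h then 1 else 0)
      = ∑ k ∈ range (q + 1), cf q (k + 1) := by
    refine Finset.sum_congr rfl fun j _ => ?_
    rw [if_pos, mul_one]
    push_cast
    have : 0 ≤ (j : ℝ) * h := by positivity
    linarith
  rw [h1]
  linarith

lemma abs_Psi_le (q : ℕ) (ρ h : ℝ) (z : E) : |Psi q ρ h z| ≤ 2 ^ (q + 1) := by
  unfold Psi
  rw [← sum_abs_cf]
  refine (Finset.abs_sum_le_sum_abs _ _).trans (Finset.sum_le_sum fun j _ => ?_)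
  rw [abs_mul]
  have : |(if ‖z‖ ^ 2 ≤ ρ + j * h then (1 : ℝ) else 0)| ≤ 1 := by
    split_ifs <;> simp
  calc |cf q j| * |(if ‖z‖ ^ 2 ≤ ρ + j * h then (1 : ℝ) else 0)| ≤ |cf q j| * 1 :=
        mul_le_mul_of_nonneg_left this (abs_nonneg _)
    _ = |cf q j| := mul_one _

end Psi

end Pool.Agent.H293R3.NA
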