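import Mathlib
import Pool.Agent.H293R3.NA1

set_option autoImplicit false
set_option linter.unusedSectionVars false

/-!
Bound for the Fourier transform of the signed combination of ball indicators, in odd dimension.
-/

namespace Pool.Agent.H293R3.NA

open Finset MeasureTheory FourierTransform

open scoped RealInnerProductSpace

section vol

variable {F : Type*} [NormedAddCommGroup F] [InnerProductSpace ℝ F] [FiniteDimensional ℝ F]
  [MeasurableSpace F] [BorelSpace F]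

/-- volume of the unit ball -/
noncomputable def cF (F : Type*) [NormedAddCommGroup F] [InnerProductSpace ℝ F]
    [FiniteDimensional ℝ F] [MeasurableSpace F] [BorelSpace F] : ℝ :=
  (volume : Measure F).real (Metric.ball 0 1)

lemma cF_pos : 0 < cF F := by
  unfold cF
  rw [Measure.real, ENNReal.toReal_pos_iff]
  exact ⟨Metric.measure_ball_pos _ _ one_pos, measure_ball_lt_top⟩

lemma set_eq_closedBall (τ : ℝ) (hτ : 0 ≤ τ) :
    {w : F | ‖w‖ ^ 2 ≤ τ} = Metric.closedBall 0 (Real.sqrt τ) := by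
  ext w
  rw [Set.mem_ofPred_eq, mem_closedBall_zero_iff]
  exact (Real.le_sqrt (norm_nonneg _) hτ).symm

lemma vol_ball (q : ℕ) (hF : Module.finrank ℝ F = 2 * q) (τ : ℝ) :
    (volume : Measure F).real {w : F | ‖w‖ ^ 2 ≤ τ} = cF F * tp q τ := by
  unfold tp
  split_ifs with h
  · rw [set_eq_closedBall τ h, Measure.addHaar_real_closedBall _ _ (Real.sqrt_nonneg _), hF,
      pow_mul, Real.sq_sqrt h, mul_comm]
    rfl
  · have : {w : F | ‖w‖ ^ 2 ≤ τ} = ∅ := by
      ext w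
      simp only [Set.mem_ofPred_eq, Set.mem_empty_iff_false, iff_false, not_le]
      push Not at h
      exact lt_of_lt_of_le h (sq_nonneg _)
    rw [this]
    simp

lemma measurableSet_ball_sq (τ : ℝ) : MeasurableSet {w : F | ‖w‖ ^ 2 ≤ τ} :=
  (isClosed_le (by fun_prop) (by fun_prop)).measurableSet

lemma volume_ball_sq_lt_top (τ : ℝ) : (volume : Measure F) {w : F | ‖w‖ ^ 2 ≤ τ} < ⊤ := by
  by_cases h : 0 ≤ τ
  · rw [set_eq_closedBall τ h]
    exact measure_closedBall_lt_top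
  · have : {w : F | ‖w‖ ^ 2 ≤ τ} = ∅ := by
      ext w
      simp only [Set.mem_ofPred_eq, Set.mem_empty_iff_false, iff_false, not_le]
      push Not at h
      exact lt_of_lt_of_le h (sq_nonneg _)
    rw [this]
    simp

lemma integrable_ind (τ : ℝ) :
    Integrable (fun z : F => (if ‖z‖ ^ 2 ≤ τ then (1 : ℝ) else 0)) := by
  have : (fun z : F => (if ‖z‖ ^ 2 ≤ τ then (1 : ℝ) else 0)) =
      Set.indicator {w : F | ‖w‖ ^ 2 ≤ τ} (fun _ => (1 : ℝ)) := by
    ext z
    rw [Set.indicator_apply]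
    rfl
  rw [this, integrable_indicator_iff (measurableSet_ball_sq τ)]
  exact integrableOn_const (volume_ball_sq_lt_top τ).ne

lemma integral_ind (τ : ℝ) :
    ∫ z : F, (if ‖z‖ ^ 2 ≤ τ then (1 : ℝ) else 0) = (volume : Measure F).real {w : F | ‖w‖ ^ 2 ≤ τ} := by
  have : (fun z : F => (if ‖z‖ ^ 2 ≤ τ then (1 : ℝ) else 0)) =
      Set.indicator {w : F | ‖w‖ ^ 2 ≤ τ} (fun _ => (1 : ℝ)) := by
    ext z
    rw [Set.indicator_apply]
    rfl
  rw [this, integral_indicator_const _ (measurableSet_ball_sq τ)]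
  simp

lemma integrable_Psi (q : ℕ) (ρ h : ℝ) : Integrable (fun z : F => Psi q ρ h z) := by
  unfold Psi
  exact integrable_finsetSum _ fun j _ => (integrable_ind _).const_mul _

end vol

section special

variable {F : Type*} [NormedAddCommGroup F] [InnerProductSpace ℝ F] [FiniteDimensional ℝ F]
  [MeasurableSpace F] [BorelSpace F]

lemma Psi_toLp (q : ℕ) (ρ h u : ℝ) (w : F) :
    Psi q ρ h (WithLp.toLp 2 (u, w)) = ∑ j ∈ range (q + 2), cf q j *
      (if ‖w‖ ^ 2 ≤ (ρ - u ^ 2) + j * h then 1 else 0) := by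
  unfold Psi
  refine Finset.sum_congr rfl fun j _ => ?_
  congr 1
  have : ‖WithLp.toLp 2 (u, w)‖ ^ 2 = u ^ 2 + ‖w‖ ^ 2 := by
    rw [WithLp.prod_norm_sq_eq_of_L2]
    simp
  rw [this]
  refine if_congr ?_ rfl rfl
  constructor <;> intro h <;> linarith

lemma integral_Psi_slice (q : ℕ) (hF : Module.finrank ℝ F = 2 * q) (ρ h u : ℝ) :
    ∫ w : F, Psi q ρ h (WithLp.toLp 2 (u, w)) = cF F * dtp q h (ρ - u ^ 2) := by
  simp_rw [Psi_toLp]
  rw [integral_finsetSum _ (fun j _ => (integrable_ind _).const_mul _)]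
  unfold dtp
  rw [Finset.mul_sum]
  refine Finset.sum_congr rfl fun j _ => ?_
  rw [integral_const_mul, integral_ind, vol_ball q hF]
  ring

/-- the set of heights at which the slices are nonzero -/
def hset (q : ℕ) (ρ h : ℝ) : Set ℝ := {u : ℝ | ρ < u ^ 2 ∧ u ^ 2 ≤ ρ + (q + 1 : ℝ) * h}

lemma measurableSet_hset (q : ℕ) (ρ h : ℝ) : MeasurableSet (hset q ρ h) := by
  have h1 : MeasurableSet {u : ℝ | ρ < u ^ 2} := measurableSet_lt (by fun_prop) (by fun_prop)
  have h2 : MeasurableSet {u : ℝ | u ^ 2 ≤ ρ + (q + 1 : ℝ) * h} :=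
    measurableSet_le (by fun_prop) (by fun_prop)
  exact h1.inter h2

lemma hset_subset (q : ℕ) (ρ h : ℝ) :
    hset q ρ h ⊆ Set.Icc (-Real.sqrt (ρ + (q + 1 : ℝ) * h)) (Real.sqrt (ρ + (q + 1 : ℝ) * h)) := by
  intro u hu
  rw [Set.mem_Icc]
  exact abs_le.mp (Real.abs_le_sqrt hu.2)

lemma volume_hset_lt_top (q : ℕ) (ρ h : ℝ) : (volume : Measure ℝ) (hset q ρ h) < ⊤ :=
  lt_of_le_of_lt (measure_mono (hset_subset q ρ h)) (by simp)

lemma fourier_Psi_special (q : ℕ) (hF : Module.finrank ℝ F = 2 * q) (ρ h r : ℝ) (hh : 0 < h) :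
    ‖𝓕 (fun z : WithLp 2 (ℝ × F) => (Psi q ρ h z : ℂ)) (WithLp.toLp 2 (r, 0))‖ ≤
      cF F * (2 ^ (q + 1) * ((q + 1 : ℝ) * h) ^ q) * (volume : Measure ℝ).real (hset q ρ h) := by
  rw [Real.fourier_eq]
  have hmp := WithLp.volume_preserving_toLp ℝ F
  have hemb : MeasurableEmbedding (@WithLp.toLp 2 (ℝ × F)) :=
    (MeasurableEquiv.toLp 2 (ℝ × F)).measurableEmbedding
  rw [← hmp.integral_comp hemb]
  have hint : Integrable (fun v : WithLp 2 (ℝ × F) =>
      Real.fourierChar (-⟪v, WithLp.toLp 2 (r, (0 : F))⟫) • (Psi q ρ h v : ℂ)) := by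
    rw [Real.fourierIntegral_convergent_iff]
    exact (integrable_Psi q ρ h).ofReal
  have hint2 := (hmp.integrable_comp_emb hemb).mpr hint
  rw [Measure.volume_eq_prod] at hint2
  have hip := integral_prod _ hint2
  simp only [Function.comp_apply] at hip
  rw [Measure.volume_eq_prod, hip]
  have hslice : ∀ u : ℝ, ∫ w : F, Real.fourierChar (-⟪WithLp.toLp 2 (u, w), WithLp.toLp 2 (r, (0 : F))⟫)
        • (Psi q ρ h (WithLp.toLp 2 (u, w)) : ℂ)
      = Real.fourierChar (-(r * u)) • ((cF F * dtp q h (ρ - u ^ 2) : ℝ) : ℂ) := by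
    intro u
    have h1 : ∀ w : F, Real.fourierChar (-⟪WithLp.toLp 2 (u, w), WithLp.toLp 2 (r, (0 : F))⟫)
        • (Psi q ρ h (WithLp.toLp 2 (u, w)) : ℂ) =
        (Real.fourierChar (-(r * u)) : ℂ) * (Psi q ρ h (WithLp.toLp 2 (u, w)) : ℂ) := by
      intro w
      rw [WithLp.prod_inner_apply]
      simp [Circle.smul_def]
    simp_rw [h1]
    rw [integral_const_mul]
    rw [Circle.smul_def, smul_eq_mul, ← integral_Psi_slice q hF ρ h u]
    congr 1
    exact integral_ofReal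
  have hslice' : ∀ u : ℝ, ∫ w : F, (fun v : WithLp 2 (ℝ × F) =>
      Real.fourierChar (-⟪v, WithLp.toLp 2 (r, (0 : F))⟫) • (Psi q ρ h v : ℂ)) (WithLp.toLp 2 (u, w))
      = Real.fourierChar (-(r * u)) • ((cF F * dtp q h (ρ - u ^ 2) : ℝ) : ℂ) := hslice
  simp only at hslice'
  rw [integral_congr_ae (Filter.Eventually.of_forall hslice')]
  have hbound : ∀ u : ℝ, ‖Real.fourierChar (-(r * u)) • ((cF F * dtp q h (ρ - u ^ 2) : ℝ) : ℂ)‖ ≤
      (hset q ρ h).indicator (fun _ => cF F * (2 ^ (q + 1) * ((q + 1 : ℝ) * h) ^ q)) u := by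
    intro u
    rw [Circle.smul_def, norm_smul, Circle.norm_coe, one_mul, Complex.norm_real, norm_mul,
      Real.norm_of_nonneg cF_pos.le, Real.norm_eq_abs]
    by_cases hu : u ∈ hset q ρ h
    · rw [Set.indicator_of_mem hu]
      refine mul_le_mul_of_nonneg_left ?_ cF_pos.le
      refine abs_dtp_le q h _ hh ?_
      have := hu.1
      linarith
    · rw [Set.indicator_of_notMem hu]
      have : dtp q h (ρ - u ^ 2) = 0 := by
        by_cases h1 : u ^ 2 ≤ ρ
        · exact dtp_of_nonneg q h _ hh (by linarith)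
        · refine dtp_of_lt q h _ hh ?_
          push Not at h1
          have h2 : ¬ (u ^ 2 ≤ ρ + (q + 1 : ℝ) * h) := fun h3 => hu ⟨h1, h3⟩
          push Not at h2
          linarith
      rw [this, abs_zero, mul_zero]
  refine (norm_integral_le_of_norm_le ?_ (Filter.Eventually.of_forall hbound)).trans ?_
  · rw [integrable_indicator_iff (measurableSet_hset q ρ h)]
    exact integrableOn_const (volume_hset_lt_top q ρ h).ne
  · rw [integral_indicator_const _ (measurableSet_hset q ρ h), smul_eq_mul, mul_comm]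

end special

section general

variable {E : Type*} [NormedAddCommGroup E] [InnerProductSpace ℝ E] [FiniteDimensional ℝ E]
  [MeasurableSpace E] [BorelSpace E]

lemma exists_isometry {E₀ : Type*} [NormedAddCommGroup E₀] [InnerProductSpace ℝ E₀]
    [FiniteDimensional ℝ E₀] (h : Module.finrank ℝ E = Module.finrank ℝ E₀) (ξ : E) (ξ₀ : E₀)
    (hn : ‖ξ‖ = ‖ξ₀‖) : ∃ φ : E ≃ₗᵢ[ℝ] E₀, φ ξ = ξ₀ := by
  obtain φ₀ : E ≃ₗᵢ[ℝ] E₀ :=
    (stdOrthonormalBasis ℝ E).equiv (stdOrthonormalBasis ℝ E₀) (finCongr h)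
  refine ⟨φ₀.trans (Submodule.reflection (ℝ ∙ (φ₀ ξ - ξ₀))ᗮ), ?_⟩
  rw [LinearIsometryEquiv.trans_apply]
  exact Submodule.reflection_sub (by rw [φ₀.norm_map, hn])

lemma fourier_Psi (q : ℕ) (hE : Module.finrank ℝ E = 2 * q + 1) (ρ h : ℝ) (hh : 0 < h) (ξ : E) :
    ‖𝓕 (fun z : E => (Psi q ρ h z : ℂ)) ξ‖ ≤
      cF (EuclideanSpace ℝ (Fin (2 * q))) * (2 ^ (q + 1) * ((q + 1 : ℝ) * h) ^ q) *
        (volume : Measure ℝ).real (hset q ρ h) := by
  have hF : Module.finrank ℝ (EuclideanSpace ℝ (Fin (2 * q))) = 2 * q := finrank_euclideanSpace_fin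
  have hE0 : Module.finrank ℝ (WithLp 2 (ℝ × EuclideanSpace ℝ (Fin (2 * q)))) = 2 * q + 1 := by
    rw [(WithLp.linearEquiv 2 ℝ (ℝ × EuclideanSpace ℝ (Fin (2 * q)))).finrank_eq,
      Module.finrank_prod, hF, Module.finrank_self]
    ring
  obtain ⟨φ, hφ⟩ := exists_isometry (hE.trans hE0.symm) ξ
    (WithLp.toLp 2 (‖ξ‖, (0 : EuclideanSpace ℝ (Fin (2 * q))))) (by
      have h1 : ‖WithLp.toLp 2 (‖ξ‖, (0 : EuclideanSpace ℝ (Fin (2 * q))))‖ ^ 2 = ‖ξ‖ ^ 2 := by
        rw [WithLp.prod_norm_sq_eq_of_L2]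
        simp
      exact ((sq_eq_sq₀ (norm_nonneg _) (norm_nonneg _)).mp h1).symm)
  have hcomp : (fun z : E => (Psi q ρ h z : ℂ)) =
      (fun z : WithLp 2 (ℝ × EuclideanSpace ℝ (Fin (2 * q))) => (Psi q ρ h z : ℂ)) ∘ φ := by
    ext z
    simp only [Function.comp_apply]
    unfold Psi
    simp only [φ.norm_map]
  rw [hcomp, Real.fourier_comp_linearIsometry, hφ]
  exact fourier_Psi_special q hF ρ h ‖ξ‖ hh

end general

end Pool.Agent.H293R3.NA
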