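import Mathlib

set_option autoImplicit false
set_option linter.unusedSectionVars false

/-!
The bilinear form attached to a convolution kernel is bounded by the supremum of the Fourier
transform of the kernel.
-/

namespace Pool.Agent.H293R3.NA

open Finset MeasureTheory FourierTransform SchwartzMap ContinuousLinearMap

open scoped RealInnerProductSpace Convolution ComplexConjugate

variable {E : Type*} [NormedAddCommGroup E] [InnerProductSpace ℝ E] [FiniteDimensional ℝ E]
  [MeasurableSpace E] [BorelSpace E]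

lemma bilin_bound (f : 𝓢(E, ℂ)) (K : E → ℂ) (hK : Integrable K) (B : ℝ)
    (hB : ∀ ξ, ‖𝓕 K ξ‖ ≤ B) :
    ‖∫ x, conj (f x) * (∫ t, K t * f (x - t))‖ ≤ B * ∫ x, ‖f x‖ ^ 2 := by
  set H : E → ℂ := K ⋆[ContinuousLinearMap.mul ℂ ℂ] (f : E → ℂ) with hH
  have hHint : Integrable H := hK.integrable_convolution _ f.integrable
  have hHcont : Continuous H := by
    refine BddAbove.continuous_convolution_right_of_integrable _ ?_ hK f.continuous
    refine ⟨‖f.toBoundedContinuousFunction‖, ?_⟩
    rintro _ ⟨x, rfl⟩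
    exact f.toBoundedContinuousFunction.norm_coe_le_norm x
  have hFH : 𝓕 H = fun ξ => 𝓕 K ξ * 𝓕 (f : E → ℂ) ξ := by
    ext ξ
    exact Real.fourier_mul_convolution_eq hK f.integrable ξ
  have hKcont : Continuous (𝓕 K) :=
    VectorFourier.fourierIntegral_continuous Real.continuous_fourierChar
      (by exact continuous_inner) hK
  have hFf : Integrable (𝓕 (f : E → ℂ)) := by
    rw [← SchwartzMap.fourier_coe]
    exact (𝓕 f).integrable
  have hFHint : Integrable (𝓕 H) := by
    rw [hFH]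
    exact hFf.bdd_mul hKcont.aestronglyMeasurable (Filter.Eventually.of_forall hB)
  have hinv : 𝓕⁻ (𝓕 H) = H := hHcont.fourierInv_fourier_eq hHint hFHint
  have key := VectorFourier.integral_sesq_fourierIntegral_eq_neg_flip (innerSL ℂ (E := ℂ))
    (L := innerₗ E) (μ := volume) (ν := volume) Real.continuous_fourierChar continuous_inner
    f.integrable hFHint
  have key2 : ∫ ξ, conj (𝓕 (f : E → ℂ) ξ) * 𝓕 H ξ = ∫ x, conj (f x) * H x := by
    have e2 : ∀ x, VectorFourier.fourierIntegral Real.fourierChar volume (-(innerₗ E).flip) (𝓕 H) x = H x := by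
      intro x
      have : VectorFourier.fourierIntegral Real.fourierChar volume (-(innerₗ E).flip) (𝓕 H) x
          = 𝓕⁻ (𝓕 H) x := by
        simp [FourierTransformInv.fourierInv, flip_innerₗ]
      rw [this, hinv]
    simp_rw [e2] at key
    have e3 : ∀ x y : ℂ, (innerSL ℂ x) y = conj x * y := by
      intro x y
      rw [innerSL_apply_apply]
      simp [mul_comm]
    simp_rw [e3] at key
    exact key
  have hHdef : ∀ x, H x = ∫ t, K t * f (x - t) := by
    intro x
    rw [hH]
    rfl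
  simp_rw [← hHdef]
  rw [← key2, hFH]
  have hPl : ∫ ξ, ‖𝓕 (f : E → ℂ) ξ‖ ^ 2 = ∫ x, ‖f x‖ ^ 2 := by
    have := SchwartzMap.integral_norm_sq_fourier f
    rw [SchwartzMap.fourier_coe] at this
    exact this
  rw [← hPl, ← integral_const_mul]
  refine norm_integral_le_of_norm_le ?_ (Filter.Eventually.of_forall fun ξ => ?_)
  · refine Integrable.const_mul ?_ _
    have h2 : MemLp (𝓕 f : 𝓢(E, ℂ)) 2 (volume : Measure E) := (𝓕 f).memLp 2
    have h3 := h2.integrable_norm_pow (by norm_num)
    rw [SchwartzMap.fourier_coe] at h3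
    simpa using h3
  · rw [norm_mul, norm_mul, RCLike.norm_conj]
    calc ‖𝓕 (f : E → ℂ) ξ‖ * (‖𝓕 K ξ‖ * ‖𝓕 (f : E → ℂ) ξ‖)
        = ‖𝓕 K ξ‖ * ‖𝓕 (f : E → ℂ) ξ‖ ^ 2 := by ring
      _ ≤ B * ‖𝓕 (f : E → ℂ) ξ‖ ^ 2 := mul_le_mul_of_nonneg_right (hB ξ) (sq_nonneg _)

end Pool.Agent.H293R3.NA
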