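import Mathlib
import Pool.Agent.H293R3.NA2
import Pool.Agent.H293R3.NA3

set_option autoImplicit false
set_option linter.unusedSectionVars false

/-!
Counting far pairs against near pairs, given a convolution kernel with small Fourier transform.
-/

namespace Pool.Agent.H293R3.NA

open Finset MeasureTheory FourierTransform SchwartzMap

open scoped RealInnerProductSpace ComplexConjugate

variable {E : Type*} [NormedAddCommGroup E] [InnerProductSpace ℝ E] [FiniteDimensional ℝ E]
  [MeasurableSpace E] [BorelSpace E]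

/-- bump function -/
noncomputable def bump (E : Type*) [NormedAddCommGroup E] [InnerProductSpace ℝ E]
    (s : ℝ) (hs : 0 < s) : ContDiffBump (0 : E) where
  rIn := s / 2
  rOut := s
  rIn_pos := by positivity
  rIn_lt_rOut := by linarith

/-- sum of bumps centred at the points of `P` -/
noncomputable def fs (s : ℝ) (hs : 0 < s) (P : Finset E) (x : E) : ℝ := ∑ p ∈ P, bump E s hs (x - p)

lemma bump_zero (s : ℝ) (hs : 0 < s) (x : E) (hx : s ≤ ‖x‖) : bump E s hs x = 0 := by
  apply (bump E s hs).zero_of_le_dist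
  rw [dist_zero_right]
  exact hx

lemma bump_ne (s : ℝ) (hs : 0 < s) (x : E) (hx : bump E s hs x ≠ 0) : ‖x‖ < s := by
  by_contra h
  exact hx (bump_zero s hs x (not_lt.mp h))

lemma fs_contDiff (s : ℝ) (hs : 0 < s) (P : Finset E) : ContDiff ℝ (⊤ : ℕ∞) (fs s hs P) := by
  unfold fs
  refine ContDiff.sum fun p _ => ?_
  exact (bump E s hs).contDiff.comp (contDiff_id.sub contDiff_const)

lemma fs_compact (s : ℝ) (hs : 0 < s) (P : Finset E) : HasCompactSupport (fs s hs P) := by
  classical
  unfold fs
  induction P using Finset.induction_on with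
  | empty =>
    simp only [Finset.sum_empty]
    exact HasCompactSupport.zero
  | insert a P ha ih =>
    simp_rw [Finset.sum_insert ha]
    refine HasCompactSupport.add ?_ ih
    exact (bump E s hs).hasCompactSupport.comp_homeomorph (Homeomorph.subRight a)

lemma fs_nonneg (s : ℝ) (hs : 0 < s) (P : Finset E) (x : E) : 0 ≤ fs s hs P x :=
  Finset.sum_nonneg fun _ _ => (bump E s hs).nonneg

lemma fs_continuous (s : ℝ) (hs : 0 < s) (P : Finset E) : Continuous (fs s hs P) :=
  (fs_contDiff s hs P).continuous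

lemma int_bump_le (s : ℝ) (hs : 0 < s) :
    ∫ x, bump E s hs x ≤ s ^ (Module.finrank ℝ E) * cF E := by
  have h := (bump E s hs).integral_le_measure_closedBall (μ := (volume : Measure E))
  rw [Measure.addHaar_real_closedBall _ _ (by exact (bump E s hs).rOut_pos.le)] at h
  exact h

lemma le_int_bump (s : ℝ) (hs : 0 < s) :
    (s / 2) ^ (Module.finrank ℝ E) * cF E ≤ ∫ x, bump E s hs x := by
  have h := (bump E s hs).measure_closedBall_le_integral (μ := (volume : Measure E))
  rw [Measure.addHaar_real_closedBall _ _ (by exact (bump E s hs).rIn_pos.le)] at h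
  exact h

lemma integrable_bump_sub (s : ℝ) (hs : 0 < s) (p : E) :
    Integrable (fun x => bump E s hs (x - p)) :=
  ((bump E s hs).integrable (μ := volume)).comp_sub_right p

/-- upper bound for the `L²` norm -/
lemma int_sq_le (s : ℝ) (hs : 0 < s) (P : Finset E) :
    ∫ x, fs s hs P x ^ 2 ≤
      (((P ×ˢ P).filter (fun z => ‖z.1 - z.2‖ ≤ 2 * s)).card : ℝ) *
        (s ^ (Module.finrank ℝ E) * cF E) := by
  classical
  have hmul : ∀ z : E × E, Integrable (fun x => bump E s hs (x - z.1) * bump E s hs (x - z.2)) := by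
    intro z
    refine (integrable_bump_sub s hs z.1).mul_bdd (c := 1) ?_ ?_
    · exact (integrable_bump_sub s hs z.2).aestronglyMeasurable
    · refine Filter.Eventually.of_forall fun x => ?_
      rw [Real.norm_of_nonneg (bump E s hs).nonneg]
      exact (bump E s hs).le_one
  have h1 : ∀ x, fs s hs P x ^ 2 = ∑ z ∈ P ×ˢ P, bump E s hs (x - z.1) * bump E s hs (x - z.2) := by
    intro x
    unfold fs
    rw [pow_two, Finset.sum_mul_sum, Finset.sum_product]
  simp_rw [h1]
  rw [integral_finsetSum _ (fun z _ => hmul z)]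
  rw [← Finset.sum_filter_add_sum_filter_not (P ×ˢ P) (fun z => ‖z.1 - z.2‖ ≤ 2 * s)]
  have h2 : ∑ z ∈ (P ×ˢ P).filter (fun z => ¬ ‖z.1 - z.2‖ ≤ 2 * s),
      ∫ x, bump E s hs (x - z.1) * bump E s hs (x - z.2) = 0 := by
    refine Finset.sum_eq_zero fun z hz => ?_
    rw [Finset.mem_filter] at hz
    have : ∀ x, bump E s hs (x - z.1) * bump E s hs (x - z.2) = 0 := by
      intro x
      by_contra hne
      have ha := bump_ne s hs _ (left_ne_zero_of_mul hne)
      have hb := bump_ne s hs _ (right_ne_zero_of_mul hne)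
      apply hz.2
      have : z.1 - z.2 = (x - z.2) - (x - z.1) := by abel
      rw [this]
      refine (norm_sub_le _ _).trans ?_
      linarith
    simp [this]
  rw [h2, add_zero, ← nsmul_eq_mul]
  refine Finset.sum_le_card_nsmul _ _ _ fun z _ => ?_
  refine le_trans ?_ (int_bump_le s hs)
  rw [← integral_sub_right_eq_self (fun x => bump E s hs x) z.1]
  refine integral_mono (hmul z) (integrable_bump_sub s hs z.1) fun x => ?_
  calc bump E s hs (x - z.1) * bump E s hs (x - z.2) ≤ bump E s hs (x - z.1) * 1 :=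
        mul_le_mul_of_nonneg_left (bump E s hs).le_one (bump E s hs).nonneg
    _ = _ := mul_one _

lemma integrable_K_bump (s : ℝ) (hs : 0 < s) (K : E → ℝ) (hK : Integrable K) (x p : E) :
    Integrable (fun t => K t * bump E s hs (x - t - p)) := by
  refine hK.mul_bdd (c := 1) ?_ ?_
  · refine Continuous.aestronglyMeasurable ?_
    exact (bump E s hs).continuous.comp (by fun_prop)
  · refine Filter.Eventually.of_forall fun t => ?_
    rw [Real.norm_of_nonneg (bump E s hs).nonneg]
    exact (bump E s hs).le_one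

open Classical in
/-- pointwise lower bound for the convolution near a point of `P` -/
lemma conv_ge (s : ℝ) (hs : 0 < s) (K : E → ℝ) (hK : Integrable K) (P : Finset E)
    (Far : E → E → Prop) (p : E)
    (h1 : ∀ p' ∈ P, ∀ t, ‖t - (p - p')‖ < 2 * s → 0 ≤ K t)
    (h2 : ∀ p' ∈ P, Far p p' → ∀ t, ‖t - (p - p')‖ < 2 * s → K t = 1) (x : E)
    (hx : ‖x - p‖ < s) :
    ((P.filter (fun p' => Far p p')).card : ℝ) * ∫ x, bump E s hs x ≤
      ∫ t, K t * fs s hs P (x - t) := by
  have e1 : ∀ t, K t * fs s hs P (x - t) = ∑ p' ∈ P, K t * bump E s hs (x - t - p') := by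
    intro t
    unfold fs
    rw [Finset.mul_sum]
  simp_rw [e1]
  rw [integral_finsetSum _ (fun p' _ => integrable_K_bump s hs K hK x p')]
  rw [← Finset.sum_filter_add_sum_filter_not P (fun p' => Far p p')]
  have hclose : ∀ p' t, bump E s hs (x - t - p') ≠ 0 → ‖t - (p - p')‖ < 2 * s := by
    intro p' t h
    have h3 := bump_ne s hs _ h
    have : t - (p - p') = (x - p) - (x - t - p') := by abel
    rw [this]
    refine (norm_sub_le _ _).trans_lt ?_
    linarith
  have hsecond : 0 ≤ ∑ p' ∈ P.filter (fun p' => ¬ Far p p'), ∫ t, K t * bump E s hs (x - t - p') := by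
    refine Finset.sum_nonneg fun p' hp' => ?_
    rw [Finset.mem_filter] at hp'
    refine integral_nonneg fun t => ?_
    show 0 ≤ K t * bump E s hs (x - t - p')
    by_cases h : bump E s hs (x - t - p') = 0
    · rw [h, mul_zero]
    · exact mul_nonneg (h1 p' hp'.1 t (hclose p' t h)) (bump E s hs).nonneg
  have hfirst : ((P.filter (fun p' => Far p p')).card : ℝ) * ∫ x, bump E s hs x =
      ∑ p' ∈ P.filter (fun p' => Far p p'), ∫ t, K t * bump E s hs (x - t - p') := by
    rw [← nsmul_eq_mul, ← Finset.sum_const]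
    refine Finset.sum_congr rfl fun p' hp' => ?_
    rw [Finset.mem_filter] at hp'
    have e2 : ∀ t, K t * bump E s hs (x - t - p') = bump E s hs ((x - p') - t) := by
      intro t
      have e3 : x - t - p' = (x - p') - t := by abel
      by_cases h : bump E s hs (x - t - p') = 0
      · rw [h, mul_zero, ← e3, h]
      · rw [h2 p' hp'.1 hp'.2 t (hclose p' t h), one_mul, e3]
    simp_rw [e2]
    rw [integral_sub_left_eq_self (fun t => bump E s hs t) volume (x - p')]
  rw [hfirst]
  linarith

open Classical in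
theorem count_general (s : ℝ) (hs : 0 < s) (K : E → ℝ) (hK : Integrable K) (B : ℝ)
    (hB : ∀ ξ, ‖𝓕 (fun z : E => (K z : ℂ)) ξ‖ ≤ B) (P : Finset E)
    (Far : E → E → Prop)
    (h1 : ∀ p ∈ P, ∀ p' ∈ P, ∀ t, ‖t - (p - p')‖ < 2 * s → 0 ≤ K t)
    (h2 : ∀ p ∈ P, ∀ p' ∈ P, Far p p' → ∀ t, ‖t - (p - p')‖ < 2 * s → K t = 1) :
    (((P ×ˢ P).filter (fun z => Far z.1 z.2)).card : ℝ) *
        ((s / 2) ^ (Module.finrank ℝ E) * cF E) ^ 2 ≤
      B * ((((P ×ˢ P).filter (fun z => ‖z.1 - z.2‖ ≤ 2 * s)).card : ℝ) *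
        (s ^ (Module.finrank ℝ E) * cF E)) := by
  -- the Schwartz function
  have hsm : ContDiff ℝ (⊤ : ℕ∞) (fun x => (fs s hs P x : ℂ)) :=
    Complex.ofRealCLM.contDiff.comp (fs_contDiff s hs P)
  have hcs : HasCompactSupport (fun x => (fs s hs P x : ℂ)) :=
    (fs_compact s hs P).comp_left Complex.ofReal_zero
  obtain ⟨f, hf⟩ : ∃ f : 𝓢(E, ℂ), ∀ x, f x = (fs s hs P x : ℂ) :=
    ⟨hcs.toSchwartzMap hsm, fun x => rfl⟩
  have hb := bilin_bound f (fun z : E => (K z : ℂ)) hK.ofReal B hB
  -- the left side is real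
  have e1 : ∫ x, conj (f x) * (∫ t, (K t : ℂ) * f (x - t)) =
      ((∫ x, fs s hs P x * (∫ t, K t * fs s hs P (x - t)) : ℝ) : ℂ) := by
    rw [← integral_complex_ofReal]
    congr 1
    ext x
    rw [hf, Complex.conj_ofReal, Complex.ofReal_mul, ← integral_complex_ofReal]
    congr 2
    ext t
    rw [hf, Complex.ofReal_mul]
  rw [e1, Complex.norm_real, Real.norm_eq_abs] at hb
  have e2 : ∫ x, ‖f x‖ ^ 2 = ∫ x, fs s hs P x ^ 2 := by
    congr 1
    ext x
    rw [hf, Complex.norm_real, Real.norm_of_nonneg (fs_nonneg s hs P x)]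
  rw [e2] at hb
  have hB0 : 0 ≤ B := (norm_nonneg _).trans (hB 0)
  refine le_trans ?_ ((le_abs_self _).trans (hb.trans
    (mul_le_mul_of_nonneg_left (int_sq_le s hs P) hB0)))
  -- lower bound
  set G : E → ℝ := fun x => ∫ t, K t * fs s hs P (x - t) with hG
  have hGc : Continuous G := by
    have : G = MeasureTheory.convolution K (fs s hs P) (ContinuousLinearMap.mul ℝ ℝ) volume := rfl
    rw [this]
    exact HasCompactSupport.continuous_convolution_right _ (fs_compact s hs P)
      hK.locallyIntegrable (fs_continuous s hs P)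
  have hGi : ∀ p, Integrable (fun x => bump E s hs (x - p) * G x) := by
    intro p
    refine Continuous.integrable_of_hasCompactSupport ?_ ?_
    · exact ((bump E s hs).continuous.comp (by fun_prop)).mul hGc
    · exact HasCompactSupport.mul_right
        ((bump E s hs).hasCompactSupport.comp_homeomorph (Homeomorph.subRight p))
  have e3 : ∫ x, fs s hs P x * G x = ∑ p ∈ P, ∫ x, bump E s hs (x - p) * G x := by
    rw [← integral_finsetSum _ (fun p _ => hGi p)]
    congr 1
    ext x
    unfold fs
    rw [Finset.sum_mul]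
  rw [e3]
  have hI : 0 ≤ (s / 2) ^ (Module.finrank ℝ E) * cF E := by
    have := cF_pos (F := E)
    positivity
  have hI2 := le_int_bump (E := E) s hs
  have hcard : (((P ×ˢ P).filter (fun z => Far z.1 z.2)).card : ℝ) =
      ∑ p ∈ P, ((P.filter (fun p' => Far p p')).card : ℝ) := by
    rw [Finset.card_filter, Finset.sum_product]
    push_cast
    refine Finset.sum_congr rfl fun p _ => ?_
    rw [Finset.card_filter]
    push_cast
    rfl
  rw [hcard, Finset.sum_mul]
  refine Finset.sum_le_sum fun p hp => ?_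
  have h3 : ∀ x, bump E s hs (x - p) *
      (((P.filter (fun p' => Far p p')).card : ℝ) * ∫ x, bump E s hs x) ≤
      bump E s hs (x - p) * G x := by
    intro x
    by_cases h : bump E s hs (x - p) = 0
    · rw [h, zero_mul, zero_mul]
    · refine mul_le_mul_of_nonneg_left ?_ (bump E s hs).nonneg
      exact conv_ge s hs K hK P Far p (fun p' hp' => h1 p hp p' hp')
        (fun p' hp' => h2 p hp p' hp') x (bump_ne s hs _ h)
  have h4 := integral_mono ((integrable_bump_sub s hs p).mul_const _) (hGi p) h3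
  rw [integral_mul_const, integral_sub_right_eq_self (fun x => bump E s hs x) p] at h4
  refine le_trans ?_ h4
  have hn : (0 : ℝ) ≤ ((P.filter (fun p' => Far p p')).card : ℝ) := by positivity
  have hI3 : 0 ≤ ∫ x, bump E s hs x := hI.trans hI2
  calc ((P.filter (fun p' => Far p p')).card : ℝ) * ((s / 2) ^ (Module.finrank ℝ E) * cF E) ^ 2
      ≤ ((P.filter (fun p' => Far p p')).card : ℝ) * (∫ x, bump E s hs x) ^ 2 :=
        mul_le_mul_of_nonneg_left (pow_le_pow_left₀ hI hI2 2) hn
    _ = _ := by ring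

end Pool.Agent.H293R3.NA
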