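import Mathlib
import Pool.Agent.H293R3.NA4

set_option autoImplicit false
set_option linter.unusedSectionVars false

/-!
Far pairs against near pairs: the inequality in odd dimension, and then in every dimension.
-/

namespace Pool.Agent.H293R3.NA

open Finset MeasureTheory FourierTransform

open scoped RealInnerProductSpace

section odd

variable {E : Type*} [NormedAddCommGroup E] [InnerProductSpace ℝ E] [FiniteDimensional ℝ E]
  [MeasurableSpace E] [BorelSpace E]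

/-- measure of the set of heights -/
lemma hset_le (q : ℕ) (ε : ℝ) (h0 : 0 < ε) (h1 : ε ≤ 1) :
    (volume : Measure ℝ).real (hset q (1 - 4 * ε) (10 * ε)) ≤ 200 * (q + 1 : ℝ) * ε := by
  set T : ℝ := (1 - 4 * ε) + (q + 1 : ℝ) * (10 * ε) with hT
  have hq : (0 : ℝ) ≤ q := by positivity
  have hT0 : 0 ≤ T := by
    rw [hT]
    nlinarith
  by_cases hε : ε ≤ 1 / 8
  · -- two intervals
    have hρ : (1 / 2 : ℝ) ≤ 1 - 4 * ε := by linarith
    set r : ℝ := Real.sqrt (1 - 4 * ε) with hr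
    set R : ℝ := Real.sqrt T with hR
    have hr2 : r ^ 2 = 1 - 4 * ε := Real.sq_sqrt (by linarith)
    have hR2 : R ^ 2 = T := Real.sq_sqrt hT0
    have hr0 : 0 ≤ r := Real.sqrt_nonneg _
    have hR0 : 0 ≤ R := Real.sqrt_nonneg _
    have hrhalf : 1 / 2 ≤ r := by
      by_contra h
      push Not at h
      nlinarith
    have hrR : r ≤ R := by
      apply Real.sqrt_le_sqrt
      rw [hT]
      nlinarith
    have hsub : hset q (1 - 4 * ε) (10 * ε) ⊆ Set.Icc r R ∪ Set.Icc (-R) (-r) := by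
      intro u hu
      obtain ⟨hu1, hu2⟩ := hu
      have ha1 : r ≤ |u| := by
        apply le_of_sq_le_sq _ (abs_nonneg u)
        rw [sq_abs, hr2]; exact hu1.le
      have ha2 : |u| ≤ R := by
        apply le_of_sq_le_sq _ hR0
        rw [sq_abs, hR2, hT]; exact hu2
      rcases abs_cases u with ⟨h, _⟩ | ⟨h, _⟩
      · left
        rw [h] at ha1 ha2
        exact ⟨ha1, ha2⟩
      · right
        rw [h] at ha1 ha2
        exact ⟨by linarith, by linarith⟩
    have hm : (volume : Measure ℝ).real (hset q (1 - 4 * ε) (10 * ε)) ≤ 2 * (R - r) := by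
      have h2 : (volume : Measure ℝ).real (hset q (1 - 4 * ε) (10 * ε)) ≤
          (volume : Measure ℝ).real (Set.Icc r R ∪ Set.Icc (-R) (-r)) := by
        refine measureReal_mono hsub ?_
        exact (measure_union_lt_top (by simp) (by simp)).ne
      refine h2.trans ((measureReal_union_le _ _).trans ?_)
      rw [Real.volume_real_Icc, Real.volume_real_Icc, max_eq_left (by linarith),
        max_eq_left (by linarith)]
      linarith
    refine hm.trans ?_
    have h3 : (R - r) * (R + r) = (q + 1 : ℝ) * (10 * ε) := by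
      have : (R - r) * (R + r) = R ^ 2 - r ^ 2 := by ring
      rw [this, hR2, hr2, hT]; ring
    have h4 : (R - r) * 1 ≤ (R - r) * (R + r) :=
      mul_le_mul_of_nonneg_left (by linarith) (by linarith)
    nlinarith
  · push Not at hε
    have hm : (volume : Measure ℝ).real (hset q (1 - 4 * ε) (10 * ε)) ≤ 2 * Real.sqrt T := by
      have h2 : (volume : Measure ℝ).real (hset q (1 - 4 * ε) (10 * ε)) ≤
          (volume : Measure ℝ).real (Set.Icc (-Real.sqrt T) (Real.sqrt T)) := by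
        refine measureReal_mono ?_ (by simp)
        exact hset_subset q (1 - 4 * ε) (10 * ε)
      refine h2.trans ?_
      rw [Real.volume_real_Icc]
      have := Real.sqrt_nonneg T
      rw [max_eq_left (by linarith)]
      linarith
    refine hm.trans ?_
    have hT1 : T ≤ 1 + 10 * (q + 1 : ℝ) := by
      rw [hT]
      nlinarith
    have h5 : Real.sqrt T ≤ 1 + 10 * (q + 1 : ℝ) := by
      rw [Real.sqrt_le_left (by positivity)]
      nlinarith
    nlinarith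

/-- constant for the Fourier transform bound -/
noncomputable def CB (q : ℕ) : ℝ :=
  cF (EuclideanSpace ℝ (Fin (2 * q))) * (2 ^ (q + 1) * (10 * (q + 1 : ℝ)) ^ q) *
    (200 * (q + 1 : ℝ))

lemma CB_pos (q : ℕ) : 0 < CB q := by
  unfold CB
  have := cF_pos (F := EuclideanSpace ℝ (Fin (2 * q)))
  positivity

lemma fourier_bound (q : ℕ) (hE : Module.finrank ℝ E = 2 * q + 1) (ε : ℝ) (h0 : 0 < ε) (h1 : ε ≤ 1)
    (ξ : E) :
    ‖𝓕 (fun z : E => ((-Psi q (1 - 4 * ε) (10 * ε) z : ℝ) : ℂ)) ξ‖ ≤ CB q * ε ^ (q + 1) := by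
  have h := fourier_Psi q hE (1 - 4 * ε) (10 * ε) (by positivity) ξ
  have hneg : 𝓕 (fun z : E => ((-Psi q (1 - 4 * ε) (10 * ε) z : ℝ) : ℂ)) ξ =
      - 𝓕 (fun z : E => (Psi q (1 - 4 * ε) (10 * ε) z : ℂ)) ξ := by
    rw [Real.fourier_eq, Real.fourier_eq, ← integral_neg]
    congr 1
    ext v
    rw [Complex.ofReal_neg, smul_neg]
  rw [hneg, norm_neg]
  refine h.trans ?_
  have hc := cF_pos (F := EuclideanSpace ℝ (Fin (2 * q)))
  calc cF (EuclideanSpace ℝ (Fin (2 * q))) * (2 ^ (q + 1) * ((q + 1 : ℝ) * (10 * ε)) ^ q) *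
        (volume : Measure ℝ).real (hset q (1 - 4 * ε) (10 * ε))
      ≤ cF (EuclideanSpace ℝ (Fin (2 * q))) * (2 ^ (q + 1) * ((q + 1 : ℝ) * (10 * ε)) ^ q) *
        (200 * (q + 1 : ℝ) * ε) :=
        mul_le_mul_of_nonneg_left (hset_le q ε h0 h1) (by positivity)
    _ = CB q * ε ^ (q + 1) := by
        unfold CB
        have : ((q + 1 : ℝ) * (10 * ε)) ^ q = (10 * (q + 1 : ℝ)) ^ q * ε ^ q := by
          rw [← mul_pow]; congr 1; ring
        rw [this, pow_succ ε q]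
        ring

/-- **Odd dimension.** -/
theorem count_odd (q : ℕ) (hE : Module.finrank ℝ E = 2 * q + 1) (ε₁ ε₂ : ℝ) (h1 : 0 < ε₁)
    (h12 : ε₁ ≤ ε₂) (h2 : ε₂ ≤ 1) (P : Finset E)
    (hP : ∀ x ∈ P, ∀ y ∈ P, ‖x - y‖ ^ 2 ≤ 1 + ε₂) :
    (((P ×ˢ P).filter (fun z => 1 - ε₂ ≤ ‖z.1 - z.2‖)).card : ℝ) * (cF E * ε₁ ^ (2 * q + 1)) ≤
      CB q * 8 ^ (2 * q + 1) * ε₂ ^ (q + 1) *
        (((P ×ˢ P).filter (fun z => ‖z.1 - z.2‖ ≤ ε₁)).card : ℝ) := by
  classical
  have hε₂ : 0 < ε₂ := lt_of_lt_of_le h1 h12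
  have hcE := cF_pos (F := E)
  have key := count_general (E := E) (ε₁ / 2) (by positivity)
    (fun z => -Psi q (1 - 4 * ε₂) (10 * ε₂) z) (integrable_Psi q _ _).neg (CB q * ε₂ ^ (q + 1))
    (fun ξ => fourier_bound q hE ε₂ hε₂ h2 ξ) P (fun x y => 1 - ε₂ ≤ ‖x - y‖) ?_ ?_
  · rw [hE] at key
    have e2 : 2 * (ε₁ / 2) = ε₁ := by ring
    rw [e2] at key
    set A : ℝ := (((P ×ˢ P).filter (fun z => 1 - ε₂ ≤ ‖z.1 - z.2‖)).card : ℝ) with hA
    set N : ℝ := (((P ×ˢ P).filter (fun z => ‖z.1 - z.2‖ ≤ ε₁)).card : ℝ) with hN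
    have e3 : (ε₁ / 2 / 2) ^ (2 * q + 1) = ε₁ ^ (2 * q + 1) / 4 ^ (2 * q + 1) := by
      rw [← div_pow]; congr 1; ring
    have e4 : (ε₁ / 2) ^ (2 * q + 1) = ε₁ ^ (2 * q + 1) / 2 ^ (2 * q + 1) := by
      rw [← div_pow]
    rw [e3, e4] at key
    set X : ℝ := ε₁ ^ (2 * q + 1) with hX
    have hXpos : 0 < X := by positivity
    have e5 : (4 : ℝ) ^ (2 * q + 1) = 2 ^ (2 * q + 1) * 2 ^ (2 * q + 1) := by
      rw [← mul_pow]; norm_num
    have e6 : (8 : ℝ) ^ (2 * q + 1) = 2 ^ (2 * q + 1) * 2 ^ (2 * q + 1) * 2 ^ (2 * q + 1) := by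
      rw [← mul_pow, ← mul_pow]; norm_num
    set Y : ℝ := (2 : ℝ) ^ (2 * q + 1) with hY
    have hYpos : 0 < Y := by positivity
    rw [e5] at key
    rw [e6]
    have k1 : A * (X / (Y * Y) * cF E) ^ 2 = (A * (cF E * X)) * (X * cF E / (Y ^ 4)) := by
      field_simp
    have k2 : CB q * ε₂ ^ (q + 1) * (N * (X / Y * cF E)) =
        (CB q * (Y * Y * Y) * ε₂ ^ (q + 1) * N) * (X * cF E / (Y ^ 4)) := by
      field_simp
    rw [k1, k2] at key
    exact le_of_mul_le_mul_right key (by positivity)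
  · intro p hp p' hp' t ht
    have hPp := hP p hp p' hp'
    have e2 : 2 * (ε₁ / 2) = ε₁ := by ring
    rw [e2] at ht
    have hn : ‖t‖ ≤ ‖p - p'‖ + ε₂ := by
      have : t = (t - (p - p')) + (p - p') := by abel
      rw [this]
      refine (norm_add_le _ _).trans ?_
      linarith
    have hpn : ‖p - p'‖ ≤ 1 + ε₂ / 2 := by
      apply le_of_sq_le_sq _ (by positivity)
      nlinarith
    have ht2 : ‖t‖ ^ 2 ≤ (1 - 4 * ε₂) + 10 * ε₂ := by
      have : ‖t‖ ≤ 1 + 3 / 2 * ε₂ := by linarith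
      have h3 : ‖t‖ ^ 2 ≤ (1 + 3 / 2 * ε₂) ^ 2 := pow_le_pow_left₀ (norm_nonneg _) this 2
      nlinarith
    by_cases h : ‖t‖ ^ 2 ≤ 1 - 4 * ε₂
    · show 0 ≤ -Psi q (1 - 4 * ε₂) (10 * ε₂) t
      rw [Psi_of_le q _ _ t (by positivity) h, neg_zero]
    · push Not at h
      show 0 ≤ -Psi q (1 - 4 * ε₂) (10 * ε₂) t
      rw [Psi_shell q _ _ t (by positivity) h ht2]
      norm_num
  · intro p hp p' hp' hfar t ht
    have hPp := hP p hp p' hp'
    have e2 : 2 * (ε₁ / 2) = ε₁ := by ring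
    rw [e2] at ht
    have hn : ‖t‖ ≤ ‖p - p'‖ + ε₂ := by
      have : t = (t - (p - p')) + (p - p') := by abel
      rw [this]
      refine (norm_add_le _ _).trans ?_
      linarith
    have hpn : ‖p - p'‖ ≤ 1 + ε₂ / 2 := by
      apply le_of_sq_le_sq _ (by positivity)
      nlinarith
    have ht2 : ‖t‖ ^ 2 ≤ (1 - 4 * ε₂) + 10 * ε₂ := by
      have : ‖t‖ ≤ 1 + 3 / 2 * ε₂ := by linarith
      have h3 : ‖t‖ ^ 2 ≤ (1 + 3 / 2 * ε₂) ^ 2 := pow_le_pow_left₀ (norm_nonneg _) this 2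
      nlinarith
    have hlow : 1 - 4 * ε₂ < ‖t‖ ^ 2 := by
      have h4 : ‖p - p'‖ ≤ ‖t‖ + ‖t - (p - p')‖ := by
        have : p - p' = t - (t - (p - p')) := by abel
        calc ‖p - p'‖ = ‖t - (t - (p - p'))‖ := by rw [← this]
          _ ≤ _ := norm_sub_le _ _
      have h5 : 1 - 2 * ε₂ < ‖t‖ := by linarith
      by_cases h6 : 0 ≤ 1 - 2 * ε₂
      · have : (1 - 2 * ε₂) ^ 2 < ‖t‖ ^ 2 := pow_lt_pow_left₀ h5 h6 (by norm_num)
        nlinarith
      · push Not at h6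
        have : 0 ≤ ‖t‖ ^ 2 := sq_nonneg _
        linarith
    show -Psi q (1 - 4 * ε₂) (10 * ε₂) t = 1
    rw [Psi_shell q _ _ t (by positivity) hlow ht2]
    norm_num

end odd

end Pool.Agent.H293R3.NA
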