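import Mathlib
import Pool.Agent.H293R3.NA5

set_option autoImplicit false
set_option linter.unusedSectionVars false

/-!
Far pairs against near pairs in every dimension, and the pigeonhole bound for near pairs.
-/

namespace Pool.Agent.H293R3.NA

open Finset MeasureTheory

open scoped RealInnerProductSpace

lemma card_nearK (L : ℕ) :
    (((range (L + 1) ×ˢ range (L + 1)).filter
      (fun k => |(k.1 : ℝ) - (k.2 : ℝ)| ≤ 1)).card : ℝ) ≤ 3 * (L + 1 : ℝ) := by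
  classical
  have hsub : (range (L + 1) ×ˢ range (L + 1)).filter (fun k => |(k.1 : ℝ) - (k.2 : ℝ)| ≤ 1) ⊆
      (range (L + 1) ×ˢ range 3).image (fun z => (z.1, z.1 + z.2 - 1)) := by
    rintro ⟨a, b⟩ hab
    rw [Finset.mem_filter, Finset.mem_product] at hab
    obtain ⟨⟨ha, hb⟩, h⟩ := hab
    simp only at h ha hb
    rw [abs_le] at h
    have h1 : (b : ℝ) ≤ a + 1 := by linarith [h.1]
    have h2 : (a : ℝ) ≤ b + 1 := by linarith [h.2]
    have h1' : b ≤ a + 1 := by exact_mod_cast h1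
    have h2' : a ≤ b + 1 := by exact_mod_cast h2
    rw [Finset.mem_image]
    refine ⟨(a, b + 1 - a), ?_, ?_⟩
    · rw [Finset.mem_product, Finset.mem_range, Finset.mem_range]
      rw [Finset.mem_range] at ha
      exact ⟨ha, by omega⟩
    · simp only [Prod.mk.injEq, true_and]
      omega
  have h := (Finset.card_le_card hsub).trans Finset.card_image_le
  rw [Finset.card_product, Finset.card_range, Finset.card_range] at h
  calc _ ≤ (((L + 1) * 3 : ℕ) : ℝ) := by exact_mod_cast h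
    _ = 3 * (L + 1 : ℝ) := by push_cast; ring

/-- **Even dimension**, by adding one coordinate. -/
theorem count_even (q : ℕ) (ε₁ ε₂ : ℝ) (h1 : 0 < ε₁)
    (h12 : ε₁ ≤ ε₂) (h2 : ε₂ ≤ 1) (X : Finset (EuclideanSpace ℝ (Fin (2 * q))))
    (hX : ∀ x ∈ X, ∀ y ∈ X, ‖x - y‖ ≤ 1) :
    (((X ×ˢ X).filter (fun z => 1 - ε₂ ≤ ‖z.1 - z.2‖)).card : ℝ) *
        (cF (WithLp 2 (ℝ × EuclideanSpace ℝ (Fin (2 * q)))) * (Real.sqrt ε₂ * ε₁ ^ (2 * q))) ≤
      3 * CB q * 8 ^ (2 * q + 1) * ε₂ ^ (q + 1) *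
        (((X ×ˢ X).filter (fun z => ‖z.1 - z.2‖ ≤ ε₁)).card : ℝ) := by
  classical
  have hε₂ : 0 < ε₂ := lt_of_lt_of_le h1 h12
  have hE0 : Module.finrank ℝ (WithLp 2 (ℝ × EuclideanSpace ℝ (Fin (2 * q)))) = 2 * q + 1 := by
    rw [(WithLp.linearEquiv 2 ℝ (ℝ × EuclideanSpace ℝ (Fin (2 * q)))).finrank_eq,
      Module.finrank_prod, finrank_euclideanSpace_fin, Module.finrank_self]
    ring
  obtain ⟨L, hL⟩ : ∃ L : ℕ, L = ⌊Real.sqrt ε₂ / ε₁⌋₊ := ⟨_, rfl⟩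
  have hs0 : 0 ≤ Real.sqrt ε₂ := Real.sqrt_nonneg _
  have hL1 : (L : ℝ) * ε₁ ≤ Real.sqrt ε₂ := by
    have : (L : ℝ) ≤ Real.sqrt ε₂ / ε₁ := by rw [hL]; exact Nat.floor_le (by positivity)
    rwa [le_div_iff₀ h1] at this
  have hL2 : Real.sqrt ε₂ ≤ (L + 1 : ℝ) * ε₁ := by
    have : Real.sqrt ε₂ / ε₁ < L + 1 := by rw [hL]; exact Nat.lt_floor_add_one _
    rw [div_lt_iff₀ h1] at this
    exact this.le
  set Φ : ℕ × EuclideanSpace ℝ (Fin (2 * q)) → WithLp 2 (ℝ × EuclideanSpace ℝ (Fin (2 * q))) :=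
    fun z => WithLp.toLp 2 ((z.1 : ℝ) * ε₁, z.2) with hΦ
  have hΦn : ∀ z z', ‖Φ z - Φ z'‖ ^ 2 = (((z.1 : ℝ) - z'.1) * ε₁) ^ 2 + ‖z.2 - z'.2‖ ^ 2 := by
    intro z z'
    have ha : (Φ z - Φ z').fst = (z.1 : ℝ) * ε₁ - z'.1 * ε₁ := rfl
    have hb : (Φ z - Φ z').snd = z.2 - z'.2 := rfl
    rw [WithLp.prod_norm_sq_eq_of_L2, ha, hb, Real.norm_eq_abs, sq_abs]
    ring
  have hΦinj : Function.Injective Φ := by
    rintro ⟨k, x⟩ ⟨k', x'⟩ h
    simp only [hΦ] at h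
    have h' := (WithLp.toLp_injective 2) h
    rw [Prod.mk.injEq] at h'
    have hk : (k : ℝ) = k' := mul_right_cancel₀ h1.ne' h'.1
    rw [Prod.mk.injEq]
    exact ⟨by exact_mod_cast hk, h'.2⟩
  set P : Finset (WithLp 2 (ℝ × EuclideanSpace ℝ (Fin (2 * q)))) := (range (L + 1) ×ˢ X).image Φ with hPdef
  have hP : ∀ x ∈ P, ∀ y ∈ P, ‖x - y‖ ^ 2 ≤ 1 + ε₂ := by
    intro x hx y hy
    rw [hPdef, Finset.mem_image] at hx hy
    obtain ⟨⟨k, a⟩, hk, rfl⟩ := hx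
    obtain ⟨⟨k', a'⟩, hk', rfl⟩ := hy
    rw [Finset.mem_product, Finset.mem_range] at hk hk'
    rw [hΦn]
    simp only at hk hk' ⊢
    have ha := hX a hk.2 a' hk'.2
    have ha2 : ‖a - a'‖ ^ 2 ≤ 1 := by
      have := pow_le_pow_left₀ (norm_nonneg _) ha 2
      simpa using this
    have hkk : |((k : ℝ) - k')| ≤ L := by
      have e1 : (k : ℝ) ≤ L := by exact_mod_cast Nat.lt_succ_iff.mp hk.1
      have e2 : (k' : ℝ) ≤ L := by exact_mod_cast Nat.lt_succ_iff.mp hk'.1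
      have e3 : (0 : ℝ) ≤ k := by positivity
      have e4 : (0 : ℝ) ≤ k' := by positivity
      rw [abs_le]
      constructor <;> linarith
    have h3 : (((k : ℝ) - k') * ε₁) ^ 2 ≤ ε₂ := by
      have h4 : |((k : ℝ) - k') * ε₁| ≤ Real.sqrt ε₂ := by
        rw [abs_mul, abs_of_pos h1]
        exact (mul_le_mul_of_nonneg_right hkk h1.le).trans hL1
      have h5 := pow_le_pow_left₀ (abs_nonneg _) h4 2
      rwa [sq_abs, Real.sq_sqrt hε₂.le] at h5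
    linarith
  have key := count_odd q hE0 ε₁ ε₂ h1 h12 h2 P hP
  -- far pairs
  have hfar : ((L + 1 : ℝ) ^ 2) * (((X ×ˢ X).filter (fun z => 1 - ε₂ ≤ ‖z.1 - z.2‖)).card : ℝ) ≤
      (((P ×ˢ P).filter (fun z => 1 - ε₂ ≤ ‖z.1 - z.2‖)).card : ℝ) := by
    have hinj : ((range (L + 1) ×ˢ range (L + 1)) ×ˢ
        ((X ×ˢ X).filter (fun z => 1 - ε₂ ≤ ‖z.1 - z.2‖))).card ≤
        ((P ×ˢ P).filter (fun z => 1 - ε₂ ≤ ‖z.1 - z.2‖)).card := by
      refine Finset.card_le_card_of_injOn (fun w => (Φ (w.1.1, w.2.1), Φ (w.1.2, w.2.2))) ?_ ?_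
      · rintro ⟨⟨k, k'⟩, ⟨a, a'⟩⟩ hw
        rw [Finset.mem_coe, Finset.mem_product, Finset.mem_product, Finset.mem_filter,
          Finset.mem_product] at hw
        rw [Finset.mem_coe, Finset.mem_filter, Finset.mem_product]
        simp only at hw ⊢
        refine ⟨⟨?_, ?_⟩, ?_⟩
        · exact Finset.mem_image_of_mem Φ (Finset.mem_product.mpr ⟨hw.1.1, hw.2.1.1⟩)
        · exact Finset.mem_image_of_mem Φ (Finset.mem_product.mpr ⟨hw.1.2, hw.2.1.2⟩)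
        · refine hw.2.2.trans ?_
          apply le_of_sq_le_sq _ (norm_nonneg _)
          rw [hΦn]
          simp only
          have := sq_nonneg (((k : ℝ) - k') * ε₁)
          linarith
      · rintro ⟨⟨k, k'⟩, ⟨a, a'⟩⟩ _ ⟨⟨l, l'⟩, ⟨b, b'⟩⟩ _ h
        simp only [Prod.mk.injEq] at h
        have h3 := hΦinj h.1
        have h4 := hΦinj h.2
        simp only [Prod.mk.injEq] at h3 h4
        simp only [Prod.mk.injEq]
        exact ⟨⟨h3.1, h4.1⟩, ⟨h3.2, h4.2⟩⟩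
    rw [Finset.card_product, Finset.card_product, Finset.card_range] at hinj
    calc ((L + 1 : ℝ) ^ 2) * (((X ×ˢ X).filter (fun z => 1 - ε₂ ≤ ‖z.1 - z.2‖)).card : ℝ)
        = (((L + 1) * (L + 1) * ((X ×ˢ X).filter (fun z => 1 - ε₂ ≤ ‖z.1 - z.2‖)).card : ℕ) : ℝ) := by
          push_cast; ring
      _ ≤ _ := by exact_mod_cast hinj
  -- near pairs
  have hnear : (((P ×ˢ P).filter (fun z => ‖z.1 - z.2‖ ≤ ε₁)).card : ℝ) ≤
      (((X ×ˢ X).filter (fun z => ‖z.1 - z.2‖ ≤ ε₁)).card : ℝ) * (3 * (L + 1 : ℝ)) := by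
    have hsub : (P ×ˢ P).filter (fun z => ‖z.1 - z.2‖ ≤ ε₁) ⊆
        (((X ×ˢ X).filter (fun z => ‖z.1 - z.2‖ ≤ ε₁)) ×ˢ
          ((range (L + 1) ×ˢ range (L + 1)).filter (fun k => |(k.1 : ℝ) - (k.2 : ℝ)| ≤ 1))).image
          (fun w => (Φ (w.2.1, w.1.1), Φ (w.2.2, w.1.2))) := by
      rintro ⟨x, y⟩ hxy
      rw [Finset.mem_filter, Finset.mem_product] at hxy
      obtain ⟨⟨hx, hy⟩, hn⟩ := hxy
      simp only at hx hy hn
      rw [hPdef, Finset.mem_image] at hx hy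
      obtain ⟨⟨k, a⟩, hk, rfl⟩ := hx
      obtain ⟨⟨k', a'⟩, hk', rfl⟩ := hy
      rw [Finset.mem_product] at hk hk'
      simp only at hk hk'
      have hn2 := pow_le_pow_left₀ (norm_nonneg _) hn 2
      rw [hΦn] at hn2
      simp only at hn2
      rw [Finset.mem_image]
      refine ⟨((a, a'), (k, k')), ?_, rfl⟩
      rw [Finset.mem_product, Finset.mem_filter, Finset.mem_filter, Finset.mem_product,
        Finset.mem_product]
      refine ⟨⟨⟨hk.2, hk'.2⟩, ?_⟩, ⟨⟨hk.1, hk'.1⟩, ?_⟩⟩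
      · apply le_of_sq_le_sq _ h1.le
        have := sq_nonneg (((k : ℝ) - k') * ε₁)
        simp only
        linarith
      · simp only
        have h5 : (|(k : ℝ) - k'| * ε₁) ^ 2 ≤ ε₁ ^ 2 := by
          rw [mul_pow, sq_abs, ← mul_pow]
          have := sq_nonneg ‖a - a'‖
          linarith
        have h6 : |(k : ℝ) - k'| * ε₁ ≤ ε₁ := le_of_sq_le_sq h5 h1.le
        nlinarith [abs_nonneg ((k : ℝ) - k')]
    have h3 := (Finset.card_le_card hsub).trans Finset.card_image_le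
    rw [Finset.card_product] at h3
    have h4 : (((P ×ˢ P).filter (fun z => ‖z.1 - z.2‖ ≤ ε₁)).card : ℝ) ≤
        (((X ×ˢ X).filter (fun z => ‖z.1 - z.2‖ ≤ ε₁)).card : ℝ) *
          (((range (L + 1) ×ˢ range (L + 1)).filter
            (fun k => |(k.1 : ℝ) - (k.2 : ℝ)| ≤ 1)).card : ℝ) := by exact_mod_cast h3
    exact h4.trans (mul_le_mul_of_nonneg_left (card_nearK L) (by positivity))
  obtain ⟨A, hA⟩ : ∃ A : ℝ, A = (((X ×ˢ X).filter (fun z => 1 - ε₂ ≤ ‖z.1 - z.2‖)).card : ℝ) := ⟨_, rfl⟩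
  obtain ⟨N, hN⟩ : ∃ N : ℝ, N = (((X ×ˢ X).filter (fun z => ‖z.1 - z.2‖ ≤ ε₁)).card : ℝ) := ⟨_, rfl⟩
  rw [← hA] at hfar ⊢
  rw [← hN] at hnear ⊢
  have hA0 : 0 ≤ A := by rw [hA]; positivity
  have hN0 : 0 ≤ N := by rw [hN]; positivity
  have hc : 0 < cF (WithLp 2 (ℝ × EuclideanSpace ℝ (Fin (2 * q)))) := cF_pos
  have hCB := CB_pos q
  have k1 : ((L + 1 : ℝ) ^ 2) * A * (cF (WithLp 2 (ℝ × EuclideanSpace ℝ (Fin (2 * q)))) * ε₁ ^ (2 * q + 1)) ≤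
      CB q * 8 ^ (2 * q + 1) * ε₂ ^ (q + 1) * (N * (3 * (L + 1 : ℝ))) := by
    refine (mul_le_mul_of_nonneg_right hfar (by positivity)).trans (key.trans ?_)
    exact mul_le_mul_of_nonneg_left hnear (by positivity)
  have hL0 : (0 : ℝ) < L + 1 := by positivity
  have k2 : (L + 1 : ℝ) * (A * (cF (WithLp 2 (ℝ × EuclideanSpace ℝ (Fin (2 * q)))) * (((L + 1 : ℝ) * ε₁) * ε₁ ^ (2 * q)))) ≤
      (L + 1 : ℝ) * (3 * CB q * 8 ^ (2 * q + 1) * ε₂ ^ (q + 1) * N) := by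
    calc _ = ((L + 1 : ℝ) ^ 2) * A * (cF (WithLp 2 (ℝ × EuclideanSpace ℝ (Fin (2 * q)))) * ε₁ ^ (2 * q + 1)) := by
          ring
      _ ≤ _ := k1
      _ = _ := by ring
  have k3 := le_of_mul_le_mul_left k2 hL0
  refine le_trans ?_ k3
  gcongr

/-- **Every dimension.** -/
theorem count_all (d : ℕ) : ∃ C : ℝ, 0 < C ∧ ∀ ε₁ ε₂ : ℝ, 0 < ε₁ → ε₁ ≤ ε₂ → ε₂ ≤ 1 →
    ∀ X : Finset (EuclideanSpace ℝ (Fin d)), (∀ x ∈ X, ∀ y ∈ X, ‖x - y‖ ≤ 1) →
      (((X ×ˢ X).filter (fun z => 1 - ε₂ ≤ ‖z.1 - z.2‖)).card : ℝ) * ε₁ ^ d ≤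
        C * ε₂ ^ (((d : ℝ) + 1) / 2) *
          (((X ×ˢ X).filter (fun z => ‖z.1 - z.2‖ ≤ ε₁)).card : ℝ) := by
  rcases Nat.even_or_odd' d with ⟨q, rfl | rfl⟩
  · have hc : 0 < cF (WithLp 2 (ℝ × EuclideanSpace ℝ (Fin (2 * q)))) := cF_pos
    have hCB := CB_pos q
    refine ⟨3 * CB q * 8 ^ (2 * q + 1) / cF (WithLp 2 (ℝ × EuclideanSpace ℝ (Fin (2 * q)))),
      by positivity, ?_⟩
    intro ε₁ ε₂ h1 h12 h2 X hX
    have hε₂ : 0 < ε₂ := lt_of_lt_of_le h1 h12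
    have key := count_even q ε₁ ε₂ h1 h12 h2 X hX
    have hs : 0 < Real.sqrt ε₂ := Real.sqrt_pos.mpr hε₂
    have e1 : ε₂ ^ (q + 1) = ε₂ ^ ((((2 * q : ℕ) : ℝ) + 1) / 2) * Real.sqrt ε₂ := by
      rw [Real.sqrt_eq_rpow, ← Real.rpow_add hε₂, ← Real.rpow_natCast]
      congr 1
      push_cast
      ring
    rw [e1] at key
    have k2 : Real.sqrt ε₂ * cF (WithLp 2 (ℝ × EuclideanSpace ℝ (Fin (2 * q)))) *
        ((((X ×ˢ X).filter (fun z => 1 - ε₂ ≤ ‖z.1 - z.2‖)).card : ℝ) * ε₁ ^ (2 * q)) ≤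
        Real.sqrt ε₂ * cF (WithLp 2 (ℝ × EuclideanSpace ℝ (Fin (2 * q)))) *
        (3 * CB q * 8 ^ (2 * q + 1) / cF (WithLp 2 (ℝ × EuclideanSpace ℝ (Fin (2 * q)))) *
          ε₂ ^ ((((2 * q : ℕ) : ℝ) + 1) / 2) *
          (((X ×ˢ X).filter (fun z => ‖z.1 - z.2‖ ≤ ε₁)).card : ℝ)) := by
      calc _ = _ := by ring
        _ ≤ _ := key
        _ = _ := by field_simp
    exact le_of_mul_le_mul_left k2 (by positivity)
  · have hc : 0 < cF (EuclideanSpace ℝ (Fin (2 * q + 1))) := cF_pos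
    have hCB := CB_pos q
    refine ⟨CB q * 8 ^ (2 * q + 1) / cF (EuclideanSpace ℝ (Fin (2 * q + 1))), by positivity, ?_⟩
    intro ε₁ ε₂ h1 h12 h2 X hX
    have hε₂ : 0 < ε₂ := lt_of_lt_of_le h1 h12
    have key := count_odd (E := EuclideanSpace ℝ (Fin (2 * q + 1))) q finrank_euclideanSpace_fin
      ε₁ ε₂ h1 h12 h2 X (fun x hx y hy => by
        have := pow_le_pow_left₀ (norm_nonneg _) (hX x hx y hy) 2
        rw [one_pow] at this
        linarith)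
    have e1 : ε₂ ^ (q + 1) = ε₂ ^ ((((2 * q + 1 : ℕ) : ℝ) + 1) / 2) := by
      rw [← Real.rpow_natCast]
      congr 1
      push_cast
      ring
    rw [e1] at key
    have k2 : cF (EuclideanSpace ℝ (Fin (2 * q + 1))) *
        ((((X ×ˢ X).filter (fun z => 1 - ε₂ ≤ ‖z.1 - z.2‖)).card : ℝ) * ε₁ ^ (2 * q + 1)) ≤
        cF (EuclideanSpace ℝ (Fin (2 * q + 1))) *
        (CB q * 8 ^ (2 * q + 1) / cF (EuclideanSpace ℝ (Fin (2 * q + 1))) *
          ε₂ ^ ((((2 * q + 1 : ℕ) : ℝ) + 1) / 2) *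
          (((X ×ˢ X).filter (fun z => ‖z.1 - z.2‖ ≤ ε₁)).card : ℝ)) := by
      calc _ = _ := by ring
        _ ≤ _ := key
        _ = _ := by field_simp
    exact le_of_mul_le_mul_left k2 hc

end Pool.Agent.H293R3.NA
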