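import Mathlib
import Pool.Agent.H293R3.NA6

set_option autoImplicit false
set_option linter.unusedSectionVars false

/-!
Pigeonhole bound for near pairs and the final inequality.
-/

namespace Pool.Agent.H293R3.NA

open Finset MeasureTheory

/-- a large set of diameter at most one has many near pairs -/
theorem pigeon (d : ℕ) : ∃ C : ℝ, 0 < C ∧ ∀ ε : ℝ, 0 < ε → ε < 1 →
    ∀ X : Finset (EuclideanSpace ℝ (Fin d)), (∀ x ∈ X, ∀ y ∈ X, dist x y ≤ 1) →
      C * (ε ^ d)⁻¹ ≤ (X.card : ℝ) →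
      (X.card : ℝ) ≤ 2 * ((X.offDiag.filter (fun p => dist p.1 p.2 ≤ ε)).card : ℝ) := by
  classical
  refine ⟨2 * (2 * Real.sqrt d + 5) ^ d, by positivity, ?_⟩
  intro ε h0 h1 X hX hcard
  rcases X.eq_empty_or_nonempty with hXe | ⟨x₀, hx₀⟩
  · rw [hXe]; simp
  obtain ⟨M, hM⟩ : ∃ M : ℕ, M = ⌈Real.sqrt d / ε⌉₊ + 1 := ⟨_, rfl⟩
  have hs0 : 0 ≤ Real.sqrt d := Real.sqrt_nonneg _
  have hM1 : Real.sqrt d / ε ≤ M := by
    rw [hM]; push_cast
    have := Nat.le_ceil (Real.sqrt d / ε)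
    linarith
  have hMpos : (0 : ℝ) < M := by rw [hM]; positivity
  have hM2 : (M : ℝ) ≤ (Real.sqrt d + 2) / ε := by
    have h2 := Nat.ceil_lt_add_one (a := Real.sqrt d / ε) (by positivity)
    have h3 : (1 : ℝ) ≤ 1 / ε := by rw [le_div_iff₀ h0]; linarith
    rw [hM]; push_cast
    rw [add_div]
    have h4 : (2 : ℝ) / ε = 1 / ε + 1 / ε := by ring
    linarith
  have hM3 : (2 * M + 1 : ℝ) ≤ (2 * Real.sqrt d + 5) / ε := by
    have h3 : (1 : ℝ) ≤ 1 / ε := by rw [le_div_iff₀ h0]; linarith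
    have h5 : (2 * Real.sqrt d + 5) / ε = 2 * ((Real.sqrt d + 2) / ε) + 1 / ε := by ring
    rw [h5]; linarith
  set g : EuclideanSpace ℝ (Fin d) → (Fin d → ℤ) := fun x i => ⌊x i * M⌋ with hg
  -- number of cells
  have himg : (X.image g).card ≤ (2 * M + 1) ^ d := by
    have hsub : X.image g ⊆ Fintype.piFinset (fun i => Finset.Icc (g x₀ i - M) (g x₀ i + M)) := by
      intro c hc
      rw [Finset.mem_image] at hc
      obtain ⟨x, hx, rfl⟩ := hc
      rw [Fintype.mem_piFinset]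
      intro i
      rw [Finset.mem_Icc]
      have hxi : |x i - x₀ i| ≤ 1 := by
        have h2 := hX x hx x₀ hx₀
        rw [dist_eq_norm] at h2
        have h3 := PiLp.norm_apply_le (x - x₀) i
        have h4 : (x - x₀) i = x i - x₀ i := rfl
        rw [h4, Real.norm_eq_abs] at h3
        exact h3.trans h2
      rw [abs_le] at hxi
      have e1 : x i * M ≤ x₀ i * M + (M : ℤ) := by
        push_cast
        nlinarith [hxi.2]
      have e2 : x₀ i * M - (M : ℤ) ≤ x i * M := by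
        push_cast
        nlinarith [hxi.1]
      simp only [hg]
      constructor
      · have h5 := Int.floor_le_floor e2
        rwa [Int.floor_sub_intCast] at h5
      · have h5 := Int.floor_le_floor e1
        rwa [Int.floor_add_intCast] at h5
    refine (Finset.card_le_card hsub).trans ?_
    rw [Fintype.card_piFinset]
    have : ∀ i : Fin d, (Finset.Icc (g x₀ i - M) (g x₀ i + M)).card = 2 * M + 1 := by
      intro i
      rw [Int.card_Icc]
      omega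
    simp only [this]
    simp
  -- points with a partner
  set Y := X.filter (fun p => ∃ p' ∈ X, p' ≠ p ∧ g p' = g p) with hY
  have hYc : Y.card ≤ (X.offDiag.filter (fun p => dist p.1 p.2 ≤ ε)).card := by
    have hex : ∀ p ∈ Y, ∃ p' ∈ X, p' ≠ p ∧ g p' = g p := by
      intro p hp
      rw [hY, Finset.mem_filter] at hp
      exact hp.2
    choose! φ hφ1 hφ2 hφ3 using hex
    refine Finset.card_le_card_of_injOn (fun p => (p, φ p)) ?_ ?_
    · intro p hp
      rw [Finset.mem_coe] at hp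
      have hpX : p ∈ X := by
        rw [hY, Finset.mem_filter] at hp
        exact hp.1
      rw [Finset.mem_coe, Finset.mem_filter, Finset.mem_offDiag]
      refine ⟨⟨hpX, hφ1 p hp, (hφ2 p hp).symm⟩, ?_⟩
      simp only
      rw [EuclideanSpace.dist_eq]
      rw [Real.sqrt_le_left h0.le]
      have h6 : ∀ i, dist (p i) (φ p i) ^ 2 ≤ (1 / M : ℝ) ^ 2 := by
        intro i
        refine pow_le_pow_left₀ dist_nonneg ?_ 2
        have h7 : g (φ p) i = g p i := congrFun (hφ3 p hp) i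
        simp only [hg] at h7
        have h8 := Int.abs_sub_lt_one_of_floor_eq_floor h7
        rw [Real.dist_eq, abs_sub_comm, le_div_iff₀ hMpos]
        have h9 : (φ p) i * M - p i * M = ((φ p) i - p i) * M := by ring
        rw [h9, abs_mul, abs_of_pos hMpos] at h8
        exact h8.le
      calc ∑ i, dist (p i) (φ p i) ^ 2 ≤ ∑ _i : Fin d, (1 / M : ℝ) ^ 2 :=
            Finset.sum_le_sum fun i _ => h6 i
        _ = d / (M : ℝ) ^ 2 := by simp; field_simp
        _ ≤ ε ^ 2 := by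
            rw [div_le_iff₀ (by positivity)]
            have h10 : Real.sqrt d ≤ M * ε := by rwa [div_le_iff₀ h0] at hM1
            have h11 := pow_le_pow_left₀ hs0 h10 2
            rw [Real.sq_sqrt (by positivity)] at h11
            calc (d : ℝ) ≤ (M * ε) ^ 2 := h11
              _ = ε ^ 2 * (M : ℝ) ^ 2 := by ring
    · intro p _ p' _ h
      simp only [Prod.mk.injEq] at h
      exact h.1
  have hXY : X.card ≤ (X.image g).card + Y.card := by
    have h2 : (X.filter (fun p => ¬ ∃ p' ∈ X, p' ≠ p ∧ g p' = g p)).card ≤ (X.image g).card := by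
      refine Finset.card_le_card_of_injOn g ?_ ?_
      · intro p hp
        rw [Finset.mem_coe, Finset.mem_filter] at hp
        exact Finset.mem_coe.mpr (Finset.mem_image_of_mem g hp.1)
      · intro p hp p' hp' h
        rw [Finset.mem_coe, Finset.mem_filter] at hp hp'
        by_contra hne
        exact hp.2 ⟨p', hp'.1, fun h => hne h.symm, h.symm⟩
    have h3 := Finset.card_filter_add_card_filter_not (s := X) (fun p => ∃ p' ∈ X, p' ≠ p ∧ g p' = g p)
    rw [← hY] at h3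
    omega
  have hK : ((X.image g).card : ℝ) ≤ (X.card : ℝ) / 2 := by
    have h2 : ((X.image g).card : ℝ) ≤ (2 * M + 1 : ℝ) ^ d := by exact_mod_cast himg
    have h3 : (2 * M + 1 : ℝ) ^ d ≤ ((2 * Real.sqrt d + 5) / ε) ^ d :=
      pow_le_pow_left₀ (by positivity) hM3 d
    rw [div_pow, div_eq_mul_inv] at h3
    linarith
  have hXY' : (X.card : ℝ) ≤ (X.image g).card + Y.card := by exact_mod_cast hXY
  have hYc' : (Y.card : ℝ) ≤ ((X.offDiag.filter (fun p => dist p.1 p.2 ≤ ε)).card : ℝ) := by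
    exact_mod_cast hYc
  linarith

lemma near_split {E : Type*} [NormedAddCommGroup E] [DecidableEq E] (X : Finset E) (ε : ℝ) :
    ((X ×ˢ X).filter (fun z => ‖z.1 - z.2‖ ≤ ε)).card ≤
      (X.offDiag.filter (fun p => dist p.1 p.2 ≤ ε)).card + X.card := by
  have hsub : (X ×ˢ X).filter (fun z => ‖z.1 - z.2‖ ≤ ε) ⊆
      (X.offDiag.filter (fun p => dist p.1 p.2 ≤ ε)) ∪ X.diag := by
    rintro ⟨x, y⟩ h
    rw [Finset.mem_filter, Finset.mem_product] at h
    rw [Finset.mem_union, Finset.mem_filter, Finset.mem_offDiag, Finset.mem_diag]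
    by_cases hxy : x = y
    · right; exact ⟨h.1.1, hxy⟩
    · left; exact ⟨⟨h.1.1, h.1.2, hxy⟩, by rw [dist_eq_norm]; exact h.2⟩
  refine (Finset.card_le_card hsub).trans ((Finset.card_union_le _ _).trans ?_)
  rw [Finset.diag_card]

lemma far_le {E : Type*} [NormedAddCommGroup E] [DecidableEq E] (X : Finset E) (ε ε' : ℝ) (h : ε ≤ ε') :
    (X.offDiag.filter (fun p => 1 - ε ≤ dist p.1 p.2)).card ≤
      ((X ×ˢ X).filter (fun z => 1 - ε' ≤ ‖z.1 - z.2‖)).card := by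
  refine Finset.card_le_card ?_
  rintro ⟨x, y⟩ hxy
  rw [Finset.mem_filter, Finset.mem_offDiag] at hxy
  rw [Finset.mem_filter, Finset.mem_product]
  refine ⟨⟨hxy.1.1, hxy.1.2.1⟩, ?_⟩
  have := hxy.2
  rw [dist_eq_norm] at this
  linarith

theorem main (d : ℕ) : ∃ c₁ c₂ : ℝ, 0 < c₁ ∧ 0 < c₂ ∧
    ∀ ε₁ ε₂ : ℝ, 0 < ε₁ → ε₁ < 1 → 0 < ε₂ → ε₂ < 1 →
      ∀ X : Finset (EuclideanSpace ℝ (Fin d)),
        (∀ x ∈ X, ∀ y ∈ X, dist x y ≤ 1) →
        c₁ * ε₁ ^ (-(d : ℝ)) ≤ (X.card : ℝ) →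
        (ε₁ ≤ ε₂ →
          c₂ * ε₁ ^ (d : ℝ) * ε₂ ^ (-(((d : ℝ) + 1) / 2)) *
              ((X.offDiag.filter (fun p => 1 - ε₂ ≤ dist p.1 p.2)).card : ℝ)
            ≤ ((X.offDiag.filter (fun p => dist p.1 p.2 ≤ ε₁)).card : ℝ)) ∧
        (ε₂ < ε₁ →
          c₂ * ε₁ ^ (((d : ℝ) - 1) / 2) *
              ((X.offDiag.filter (fun p => 1 - ε₂ ≤ dist p.1 p.2)).card : ℝ)
            ≤ ((X.offDiag.filter (fun p => dist p.1 p.2 ≤ ε₁)).card : ℝ)) := by
  classical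
  obtain ⟨C₁, hC₁, hpig⟩ := pigeon d
  obtain ⟨C, hC, hall⟩ := count_all d
  refine ⟨C₁, 1 / (3 * C), hC₁, by positivity, ?_⟩
  intro ε₁ ε₂ h1 h1' h2 h2' X hX hcard
  have hX' : ∀ x ∈ X, ∀ y ∈ X, ‖x - y‖ ≤ 1 := by
    intro x hx y hy
    rw [← dist_eq_norm]; exact hX x hx y hy
  have hpow : ε₁ ^ (-(d : ℝ)) = (ε₁ ^ d)⁻¹ := by
    rw [Real.rpow_neg h1.le, Real.rpow_natCast]
  rw [hpow] at hcard
  have hp := hpig ε₁ h1 h1' X hX hcard
  have hns := near_split X ε₁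
  have hns' : (((X ×ˢ X).filter (fun z => ‖z.1 - z.2‖ ≤ ε₁)).card : ℝ) ≤
      3 * ((X.offDiag.filter (fun p => dist p.1 p.2 ≤ ε₁)).card : ℝ) := by
    have : (((X ×ˢ X).filter (fun z => ‖z.1 - z.2‖ ≤ ε₁)).card : ℝ) ≤
      ((X.offDiag.filter (fun p => dist p.1 p.2 ≤ ε₁)).card : ℝ) + X.card := by exact_mod_cast hns
    linarith
  obtain ⟨N, hN⟩ : ∃ N : ℝ, N = ((X.offDiag.filter (fun p => dist p.1 p.2 ≤ ε₁)).card : ℝ) := ⟨_, rfl⟩
  rw [← hN] at hns' ⊢
  have hN0 : 0 ≤ N := by rw [hN]; positivity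
  constructor
  · intro h12
    have key := hall ε₁ ε₂ h1 h12 h2'.le X hX'
    have hfar := far_le X ε₂ ε₂ le_rfl
    have hfar' : ((X.offDiag.filter (fun p => 1 - ε₂ ≤ dist p.1 p.2)).card : ℝ) ≤
        (((X ×ˢ X).filter (fun z => 1 - ε₂ ≤ ‖z.1 - z.2‖)).card : ℝ) := by exact_mod_cast hfar
    obtain ⟨A, hA⟩ : ∃ A : ℝ, A = ((X.offDiag.filter (fun p => 1 - ε₂ ≤ dist p.1 p.2)).card : ℝ) :=
      ⟨_, rfl⟩
    rw [← hA] at hfar' ⊢
    have hY : 0 < ε₂ ^ (((d : ℝ) + 1) / 2) := Real.rpow_pos_of_pos h2 _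
    have k1 : A * ε₁ ^ d ≤ C * ε₂ ^ (((d : ℝ) + 1) / 2) * (3 * N) := by
      refine (mul_le_mul_of_nonneg_right hfar' (by positivity)).trans (key.trans ?_)
      exact mul_le_mul_of_nonneg_left hns' (by positivity)
    rw [Real.rpow_natCast, Real.rpow_neg h2.le]
    calc 1 / (3 * C) * ε₁ ^ d * (ε₂ ^ (((d : ℝ) + 1) / 2))⁻¹ * A
        = (A * ε₁ ^ d) * (1 / (3 * C) * (ε₂ ^ (((d : ℝ) + 1) / 2))⁻¹) := by ring
      _ ≤ (C * ε₂ ^ (((d : ℝ) + 1) / 2) * (3 * N)) * (1 / (3 * C) * (ε₂ ^ (((d : ℝ) + 1) / 2))⁻¹) :=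
          mul_le_mul_of_nonneg_right k1 (by positivity)
      _ = N := by field_simp
  · intro h21
    have key := hall ε₁ ε₁ h1 le_rfl h1'.le X hX'
    have hfar := far_le X ε₂ ε₁ h21.le
    have hfar' : ((X.offDiag.filter (fun p => 1 - ε₂ ≤ dist p.1 p.2)).card : ℝ) ≤
        (((X ×ˢ X).filter (fun z => 1 - ε₁ ≤ ‖z.1 - z.2‖)).card : ℝ) := by exact_mod_cast hfar
    obtain ⟨A, hA⟩ : ∃ A : ℝ, A = ((X.offDiag.filter (fun p => 1 - ε₂ ≤ dist p.1 p.2)).card : ℝ) :=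
      ⟨_, rfl⟩
    rw [← hA] at hfar' ⊢
    have hY : 0 < ε₁ ^ (((d : ℝ) + 1) / 2) := Real.rpow_pos_of_pos h1 _
    have k1 : A * ε₁ ^ d ≤ C * ε₁ ^ (((d : ℝ) + 1) / 2) * (3 * N) := by
      refine (mul_le_mul_of_nonneg_right hfar' (by positivity)).trans (key.trans ?_)
      exact mul_le_mul_of_nonneg_left hns' (by positivity)
    have e1 : ε₁ ^ d = ε₁ ^ (((d : ℝ) + 1) / 2) * ε₁ ^ (((d : ℝ) - 1) / 2) := by
      rw [← Real.rpow_add h1, ← Real.rpow_natCast]
      congr 1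
      ring
    rw [e1] at k1
    have k2 : ε₁ ^ (((d : ℝ) + 1) / 2) * (A * ε₁ ^ (((d : ℝ) - 1) / 2)) ≤
        ε₁ ^ (((d : ℝ) + 1) / 2) * (C * (3 * N)) := by
      calc _ = _ := by ring
        _ ≤ _ := k1
        _ = _ := by ring
    have k3 := le_of_mul_le_mul_left k2 hY
    calc 1 / (3 * C) * ε₁ ^ (((d : ℝ) - 1) / 2) * A
        = (A * ε₁ ^ (((d : ℝ) - 1) / 2)) * (1 / (3 * C)) := by ring
      _ ≤ (C * (3 * N)) * (1 / (3 * C)) := mul_le_mul_of_nonneg_right k3 (by positivity)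
      _ = N := by field_simp

end Pool.Agent.H293R3.NA
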