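import Mathlib

set_option autoImplicit false
open MeasureTheory Filter Topology

namespace Pool.Agent.H293R3.OR

variable {X : Type*} [MeasurableSpace X]

/-- bounded measurable -/
def BM (F : X → ℝ) : Prop := Measurable F ∧ ∃ C : ℝ, ∀ x, |F x| ≤ C

/-- correlation -/
noncomputable def corr (μ : Measure X) (T : X → X) (F G : X → ℝ) (n : ℕ) : ℝ :=
  ∫ x, F x * G (T^[n] x) ∂μ

lemma BM.add {F G : X → ℝ} (hF : BM F) (hG : BM G) : BM (fun x => F x + G x) := by
  obtain ⟨h1, C, hC⟩ := hF
  obtain ⟨h2, D, hD⟩ := hG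
  exact ⟨h1.add h2, C + D, fun x => (abs_add_le _ _).trans (add_le_add (hC x) (hD x))⟩

lemma BM.mul {F G : X → ℝ} (hF : BM F) (hG : BM G) : BM (fun x => F x * G x) := by
  obtain ⟨h1, C, hC⟩ := hF
  obtain ⟨h2, D, hD⟩ := hG
  refine ⟨h1.mul h2, C * D, fun x => ?_⟩
  rw [abs_mul]
  exact mul_le_mul (hC x) (hD x) (abs_nonneg _) ((abs_nonneg _).trans (hC x))

lemma BM.const (c : ℝ) : BM (fun _ : X => c) := ⟨measurable_const, |c|, fun _ => le_rfl⟩

lemma BM.cmul {F : X → ℝ} (c : ℝ) (hF : BM F) : BM (fun x => c * F x) := (BM.const c).mul hF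

lemma BM.sub {F G : X → ℝ} (hF : BM F) (hG : BM G) : BM (fun x => F x - G x) := by
  have := hF.add (hG.cmul (-1))
  convert this using 2
  ring

lemma BM.abs {F : X → ℝ} (hF : BM F) : BM (fun x => |F x|) := by
  obtain ⟨h1, C, hC⟩ := hF
  exact ⟨h1.abs, C, fun x => by rw [abs_abs]; exact hC x⟩

lemma BM.comp {F : X → ℝ} (hF : BM F) {S : X → X} (hS : Measurable S) : BM (fun x => F (S x)) := by
  obtain ⟨h1, C, hC⟩ := hF
  exact ⟨h1.comp hS, C, fun x => hC _⟩

lemma BM.sum {ι : Type*} (s : Finset ι) {F : ι → X → ℝ} (hF : ∀ i ∈ s, BM (F i)) :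
    BM (fun x => ∑ i ∈ s, F i x) := by
  classical
  induction s using Finset.induction_on with
  | empty => simpa using BM.const (X := X) 0
  | insert a s ha ih =>
    have := (hF a (Finset.mem_insert_self _ _)).add
      (ih (fun i hi => hF i (Finset.mem_insert_of_mem hi)))
    convert this using 2
    rw [Finset.sum_insert ha]

lemma BM.indicator {A : Set X} (hA : MeasurableSet A) : BM (A.indicator (fun _ => (1 : ℝ))) := by
  refine ⟨measurable_const.indicator hA, 1, fun x => ?_⟩
  by_cases h : x ∈ A <;> simp [h]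

lemma BM.integrable {F : X → ℝ} (hF : BM F) (μ : Measure X) [IsFiniteMeasure μ] :
    Integrable F μ := by
  obtain ⟨h1, C, hC⟩ := hF
  exact Integrable.of_bound h1.aestronglyMeasurable C (Eventually.of_forall (fun x => by
    rw [Real.norm_eq_abs]; exact hC x))

variable {μ : Measure X} [IsProbabilityMeasure μ] {T : X → X}

lemma int_comp (hT : MeasurePreserving T μ μ) {F : X → ℝ} (hF : BM F) (n : ℕ) :
    ∫ x, F (T^[n] x) ∂μ = ∫ x, F x ∂μ := by
  have h := hT.iterate n
  have h2 : ∫ y, F y ∂(Measure.map (T^[n]) μ) = ∫ x, F (T^[n] x) ∂μ :=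
    integral_map h.measurable.aemeasurable hF.1.aestronglyMeasurable
  rw [h.map_eq] at h2
  exact h2.symm

lemma corr_add_left (hT : Measurable T) {F F' G : X → ℝ} (hF : BM F) (hF' : BM F') (hG : BM G)
    (n : ℕ) : corr μ T (fun x => F x + F' x) G n = corr μ T F G n + corr μ T F' G n := by
  unfold corr
  rw [← integral_add ((hF.mul (hG.comp (hT.iterate n))).integrable μ)
    ((hF'.mul (hG.comp (hT.iterate n))).integrable μ)]
  congr 1
  ext x
  ring

lemma corr_add_right (hT : Measurable T) {F G G' : X → ℝ} (hF : BM F) (hG : BM G) (hG' : BM G')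
    (n : ℕ) : corr μ T F (fun x => G x + G' x) n = corr μ T F G n + corr μ T F G' n := by
  unfold corr
  rw [← integral_add ((hF.mul (hG.comp (hT.iterate n))).integrable μ)
    ((hF.mul (hG'.comp (hT.iterate n))).integrable μ)]
  congr 1
  ext x
  ring

lemma corr_cmul_left (c : ℝ) (F G : X → ℝ) (n : ℕ) :
    corr μ T (fun x => c * F x) G n = c * corr μ T F G n := by
  unfold corr
  rw [← integral_const_mul]
  congr 1
  ext x
  ring

lemma corr_cmul_right (c : ℝ) (F G : X → ℝ) (n : ℕ) :
    corr μ T F (fun x => c * G x) n = c * corr μ T F G n := by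
  unfold corr
  rw [← integral_const_mul]
  congr 1
  ext x
  ring

/-- shift invariance -/
lemma corr_shift (hT : MeasurePreserving T μ μ) {F G : X → ℝ} (hF : BM F) (hG : BM G) (k n : ℕ) :
    ∫ x, F (T^[k] x) * G (T^[n + k] x) ∂μ = corr μ T F G n := by
  have h := int_comp hT (hF.mul (hG.comp (hT.measurable.iterate n))) k
  unfold corr
  rw [← h]
  congr 1
  ext x
  rw [Function.iterate_add_apply]

end Pool.Agent.H293R3.OR
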