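import Pool.Agent.H293R3.OR1

set_option autoImplicit false
open MeasureTheory Filter Topology

namespace Pool.Agent.H293R3.OR

variable {X : Type*} [MeasurableSpace X] {μ : Measure X} [IsProbabilityMeasure μ] {T : X → X}

/-- mixing, real valued -/
def Mix (μ : Measure X) (T : X → X) : Prop :=
  ∀ A B : Set X, MeasurableSet A → MeasurableSet B →
    Tendsto (fun n : ℕ => μ.real (A ∩ T^[n] ⁻¹' B)) atTop (𝓝 (μ.real A * μ.real B))

/-- sets of small positive measure exist -/
lemma small_set (hT : MeasurePreserving T μ μ) (hM : Mix μ T)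
    (h0 : ∃ A : Set X, MeasurableSet A ∧ 0 < μ.real A ∧ μ.real A < 1) {τ : ℝ} (hτ : 0 < τ) :
    ∃ B : Set X, MeasurableSet B ∧ 0 < μ.real B ∧ μ.real B ≤ τ := by
  obtain ⟨A, hA, hA0, hA1⟩ := h0
  set b := μ.real A with hb
  set r := (1 + b) / 2 with hr
  have hr0 : 0 < r := by rw [hr]; linarith
  have hr1 : r < 1 := by rw [hr]; linarith
  have hbr : b < r := by rw [hr]; linarith
  have key : ∀ k : ℕ, ∃ B : Set X, MeasurableSet B ∧ 0 < μ.real B ∧ μ.real B ≤ b * r ^ k := by
    intro k
    induction k with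
    | zero => exact ⟨A, hA, hA0, by simp [hb]⟩
    | succ k ih =>
      obtain ⟨B, hB, hB0, hBk⟩ := ih
      have hlim := hM B B hB hB
      have hBb : μ.real B ≤ b := by
        calc μ.real B ≤ b * r ^ k := hBk
          _ ≤ b * 1 := by
            apply mul_le_mul_of_nonneg_left _ hA0.le
            exact pow_le_one₀ hr0.le hr1.le
          _ = b := by ring
      have h1 : (0 : ℝ) < μ.real B * μ.real B := mul_pos hB0 hB0
      have h2 : μ.real B * μ.real B < r * μ.real B := by
        apply mul_lt_mul_of_pos_right (lt_of_le_of_lt hBb hbr) hB0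
      have e1 := hlim.eventually (lt_mem_nhds h1)
      have e2 := hlim.eventually (gt_mem_nhds h2)
      obtain ⟨n, hn1, hn2⟩ := (e1.and e2).exists
      refine ⟨B ∩ T^[n] ⁻¹' B, hB.inter (hT.measurable.iterate n hB), hn1, ?_⟩
      calc μ.real (B ∩ T^[n] ⁻¹' B) ≤ r * μ.real B := hn2.le
        _ ≤ r * (b * r ^ k) := mul_le_mul_of_nonneg_left hBk hr0.le
        _ = b * r ^ (k + 1) := by ring
  have hlim : Tendsto (fun k : ℕ => b * r ^ k) atTop (𝓝 (b * 0)) :=
    (tendsto_pow_atTop_nhds_zero_of_lt_one hr0.le hr1).const_mul b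
  rw [mul_zero] at hlim
  obtain ⟨k, hk⟩ := (hlim.eventually (gt_mem_nhds hτ)).exists
  obtain ⟨B, hB, hB0, hBk⟩ := key k
  exact ⟨B, hB, hB0, hBk.trans hk.le⟩

/-- union of the first K preimages -/
def un (T : X → X) (B : Set X) (K : ℕ) : Set X := {x | ∃ k, k < K ∧ T^[k] x ∈ B}

omit [IsProbabilityMeasure μ] in
lemma un_meas (hT : Measurable T) {B : Set X} (hB : MeasurableSet B) (K : ℕ) :
    MeasurableSet (un T B K) := by
  have : un T B K = ⋃ k ∈ Finset.range K, T^[k] ⁻¹' B := by
    ext x
    simp [un]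
  rw [this]
  exact Finset.measurableSet_biUnion _ (fun k _ => hT.iterate k hB)

lemma un_mono (T : X → X) (B : Set X) : Monotone (un T B) := by
  intro a b hab x hx
  obtain ⟨k, hk, hx⟩ := hx
  exact ⟨k, lt_of_lt_of_le hk hab, hx⟩

lemma preim_real (hT : MeasurePreserving T μ μ) {B : Set X} (hB : MeasurableSet B) (k : ℕ) :
    μ.real (T^[k] ⁻¹' B) = μ.real B := by
  rw [measureReal_def, measureReal_def, (hT.iterate k).measure_preimage hB.nullMeasurableSet]

lemma un_succ_le (hT : MeasurePreserving T μ μ) {B : Set X} (hB : MeasurableSet B) (K : ℕ) :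
    μ.real (un T B (K + 1)) ≤ μ.real (un T B K) + μ.real B := by
  have hsub : un T B (K + 1) ⊆ un T B K ∪ T^[K] ⁻¹' B := by
    rintro x ⟨k, hk, hx⟩
    rcases Nat.lt_succ_iff_lt_or_eq.1 hk with h | h
    · exact Or.inl ⟨k, h, hx⟩
    · right; rw [← h]; exact hx
  calc μ.real (un T B (K + 1)) ≤ μ.real (un T B K ∪ T^[K] ⁻¹' B) := measureReal_mono hsub
    _ ≤ μ.real (un T B K) + μ.real (T^[K] ⁻¹' B) := measureReal_union_le _ _
    _ = μ.real (un T B K) + μ.real B := by rw [preim_real hT hB]

/-- half-measure union -/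
lemma exists_half (hT : MeasurePreserving T μ μ) (hM : Mix μ T) {B : Set X}
    (hB : MeasurableSet B) (hB0 : 0 < μ.real B) :
    ∃ K : ℕ, 1 / 2 ≤ μ.real (un T B K) ∧ μ.real (un T B K) ≤ 1 / 2 + μ.real B := by
  classical
  -- the full union has full measure
  set U : Set X := ⋃ K, un T B K with hU
  have hUm : MeasurableSet U := MeasurableSet.iUnion (fun K => un_meas hT.measurable hB K)
  have hUc : μ.real Uᶜ = 0 := by
    have h1 : ∀ n : ℕ, μ.real (Uᶜ ∩ T^[n] ⁻¹' B) = 0 := by
      intro n
      have : Uᶜ ∩ T^[n] ⁻¹' B = ∅ := by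
        ext x
        simp only [Set.mem_inter_iff, Set.mem_compl_iff, Set.mem_preimage, Set.mem_empty_iff_false,
          iff_false, not_and]
        intro hx hxB
        exact hx (Set.mem_iUnion.2 ⟨n + 1, n, Nat.lt_succ_self n, hxB⟩)
      rw [this]
      simp
    have h2 := hM Uᶜ B hUm.compl hB
    simp only [h1] at h2
    have h3 := tendsto_nhds_unique h2 tendsto_const_nhds
    rcases mul_eq_zero.1 h3 with h | h
    · exact h
    · exact absurd h hB0.ne'
  have hU1 : μ.real U = 1 := by
    have := measureReal_add_measureReal_compl (μ := μ) hUm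
    rw [hUc, add_zero] at this
    rw [this]
    simp
  have hlim : Tendsto (fun K => μ.real (un T B K)) atTop (𝓝 1) := by
    have h := tendsto_measure_iUnion_atTop (μ := μ) (un_mono T B)
    have h' := (ENNReal.tendsto_toReal (measure_ne_top μ _)).comp h
    have : (μ (⋃ K, un T B K)).toReal = 1 := hU1
    rw [this] at h'
    exact h'
  have hex : ∃ K, 1 / 2 ≤ μ.real (un T B K) := by
    have := hlim.eventually (lt_mem_nhds (show (1 / 2 : ℝ) < 1 by norm_num))
    obtain ⟨K, hK⟩ := this.exists
    exact ⟨K, hK.le⟩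
  refine ⟨Nat.find hex, Nat.find_spec hex, ?_⟩
  have hpos : 0 < Nat.find hex := by
    rw [Nat.find_pos]
    have : un T B 0 = ∅ := by
      ext x; simp [un]
    rw [this]
    simp
  obtain ⟨m, hm⟩ := Nat.exists_eq_succ_of_ne_zero hpos.ne'
  have hlt : ¬ (1 / 2 ≤ μ.real (un T B m)) := Nat.find_min hex (by omega)
  push Not at hlt
  rw [hm]
  have := un_succ_le hT hB m
  simp only [Nat.succ_eq_add_one]
  linarith

/-- the pointwise near-invariance -/
lemma un_step (B : Set X) (K : ℕ) (x : X) :
    |(un T B K).indicator (fun _ => (1 : ℝ)) (T x) - (un T B K).indicator (fun _ => (1 : ℝ)) x| ≤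
      B.indicator (fun _ => (1 : ℝ)) x + B.indicator (fun _ => (1 : ℝ)) (T^[K] x) := by
  classical
  have n1 : 0 ≤ B.indicator (fun _ => (1 : ℝ)) x := Set.indicator_nonneg (fun _ _ => zero_le_one) _
  have n2 : 0 ≤ B.indicator (fun _ => (1 : ℝ)) (T^[K] x) :=
    Set.indicator_nonneg (fun _ _ => zero_le_one) _
  by_cases h1 : T x ∈ un T B K <;> by_cases h2 : x ∈ un T B K
  · rw [Set.indicator_of_mem h1, Set.indicator_of_mem h2]
    simp only [sub_self, abs_zero]
    linarith
  · rw [Set.indicator_of_mem h1, Set.indicator_of_notMem h2]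
    obtain ⟨k, hk, hx⟩ := h1
    have hkK : k + 1 = K := by
      by_contra hne
      apply h2
      exact ⟨k + 1, by omega, by rw [Function.iterate_succ_apply]; exact hx⟩
    have : T^[K] x ∈ B := by rw [← hkK, Function.iterate_succ_apply]; exact hx
    rw [Set.indicator_of_mem this]
    simp only [sub_zero, abs_one]
    linarith
  · rw [Set.indicator_of_notMem h1, Set.indicator_of_mem h2]
    obtain ⟨k, hk, hx⟩ := h2
    have hk0 : k = 0 := by
      by_contra hne
      apply h1
      obtain ⟨j, rfl⟩ := Nat.exists_eq_succ_of_ne_zero hne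
      exact ⟨j, by omega, by rw [Function.iterate_succ_apply] at hx; exact hx⟩
    have : x ∈ B := by rw [hk0] at hx; exact hx
    rw [Set.indicator_of_mem this]
    simp only [zero_sub, abs_neg, abs_one]
    linarith
  · rw [Set.indicator_of_notMem h1, Set.indicator_of_notMem h2]
    simp only [sub_self, abs_zero]
    linarith

end Pool.Agent.H293R3.OR
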