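import Pool.Agent.H293R3.OR2

set_option autoImplicit false
open MeasureTheory Filter Topology

namespace Pool.Agent.H293R3.OR

variable {X : Type*} [MeasurableSpace X] {μ : Measure X} [IsProbabilityMeasure μ] {T : X → X}

/-- centred indicator -/
noncomputable def cen (μ : Measure X) (A : Set X) : X → ℝ :=
  fun x => A.indicator (fun _ => (1 : ℝ)) x - μ.real A

lemma cen_BM {A : Set X} (hA : MeasurableSet A) : BM (cen μ A) :=
  (BM.indicator hA).sub (BM.const _)

lemma cen_abs_le (A : Set X) (x : X) : |cen μ A x| ≤ 1 := by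
  have h0 : 0 ≤ μ.real A := measureReal_nonneg
  have h1 : μ.real A ≤ 1 := measureReal_le_one
  unfold cen
  rw [abs_le]
  by_cases h : x ∈ A
  · rw [Set.indicator_of_mem h]; constructor <;> linarith
  · rw [Set.indicator_of_notMem h]; constructor <;> linarith

lemma int_ind {A : Set X} (hA : MeasurableSet A) :
    ∫ x, A.indicator (fun _ => (1 : ℝ)) x ∂μ = μ.real A := by
  rw [integral_indicator_const _ hA]
  simp

lemma cen_int {A : Set X} (hA : MeasurableSet A) : ∫ x, cen μ A x ∂μ = 0 := by
  unfold cen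
  rw [integral_sub ((BM.indicator hA).integrable μ) ((BM.const _).integrable μ), int_ind hA]
  simp

lemma cen_sq {A : Set X} (hA : MeasurableSet A) :
    ∫ x, cen μ A x * cen μ A x ∂μ = μ.real A - μ.real A * μ.real A := by
  have h : ∀ x, cen μ A x * cen μ A x =
      (1 - 2 * μ.real A) * A.indicator (fun _ => (1 : ℝ)) x + μ.real A * μ.real A := by
    intro x
    unfold cen
    by_cases h : x ∈ A
    · rw [Set.indicator_of_mem h]; ring
    · rw [Set.indicator_of_notMem h]; ring
  simp only [h]
  rw [integral_add (((BM.indicator hA).cmul _).integrable μ) ((BM.const _).integrable μ),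
    integral_const_mul, int_ind hA]
  simp
  ring

/-- near invariance under one step implies near invariance under n steps -/
lemma near_inv (hT : MeasurePreserving T μ μ) {g : X → ℝ} (hg : BM g) {τ : ℝ}
    (h1 : ∫ x, |g (T x) - g x| ∂μ ≤ τ) (n : ℕ) :
    ∫ x, |g (T^[n] x) - g x| ∂μ ≤ n * τ := by
  induction n with
  | zero => simp
  | succ n ih =>
    have hTm := hT.measurable
    have hstep : ∫ x, |g (T^[n + 1] x) - g (T^[n] x)| ∂μ = ∫ x, |g (T x) - g x| ∂μ := by
      have h := int_comp hT (((hg.comp hTm).sub hg).abs) n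
      rw [← h]
      congr 1
      ext x
      rw [← Function.iterate_succ_apply' T n x]
    have hle : ∫ x, |g (T^[n + 1] x) - g x| ∂μ ≤
        ∫ x, (|g (T^[n + 1] x) - g (T^[n] x)| + |g (T^[n] x) - g x|) ∂μ := by
      apply integral_mono
      · exact (((hg.comp (hTm.iterate (n + 1))).sub hg).abs).integrable μ
      · exact ((((hg.comp (hTm.iterate (n + 1))).sub (hg.comp (hTm.iterate n))).abs).add
          (((hg.comp (hTm.iterate n)).sub hg).abs)).integrable μ
      · intro x
        exact abs_sub_le _ _ _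
    rw [integral_add (((((hg.comp (hTm.iterate (n + 1))).sub (hg.comp (hTm.iterate n))).abs)).integrable μ)
      (((hg.comp (hTm.iterate n)).sub hg).abs.integrable μ), hstep] at hle
    push_cast
    linarith

lemma near_inv' (hT : MeasurePreserving T μ μ) {g : X → ℝ} (hg : BM g) {τ : ℝ}
    (h1 : ∫ x, |g (T x) - g x| ∂μ ≤ τ) (n k : ℕ) :
    ∫ x, |g (T^[n + k] x) - g (T^[n] x)| ∂μ ≤ k * τ := by
  have hTm := hT.measurable
  have h := int_comp hT (((hg.comp (hTm.iterate k)).sub hg).abs) n
  have h2 := near_inv hT hg h1 k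
  rw [← h] at h2
  calc ∫ x, |g (T^[n + k] x) - g (T^[n] x)| ∂μ
      = ∫ x, |g (T^[k] (T^[n] x)) - g (T^[n] x)| ∂μ := by
        congr 1
        ext x
        rw [← Function.iterate_add_apply, Nat.add_comm n k]
    _ ≤ k * τ := h2

/-- difference of integrals against a bounded function -/
lemma diff_bound {F G G' : X → ℝ} (hF : BM F) (hG : BM G) (hG' : BM G') {C : ℝ}
    (hC : ∀ x, |F x| ≤ C) :
    |∫ x, F x * G x ∂μ - ∫ x, F x * G' x ∂μ| ≤ C * ∫ x, |G x - G' x| ∂μ := by
  rw [← integral_sub ((hF.mul hG).integrable μ) ((hF.mul hG').integrable μ)]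
  calc |∫ x, (F x * G x - F x * G' x) ∂μ| ≤ ∫ x, |F x * G x - F x * G' x| ∂μ :=
        abs_integral_le_integral_abs
    _ ≤ ∫ x, C * |G x - G' x| ∂μ := by
        apply integral_mono
        · exact (((hF.mul hG).sub (hF.mul hG')).abs).integrable μ
        · exact ((hG.sub hG').abs.cmul C).integrable μ
        · intro x
          show |F x * G x - F x * G' x| ≤ C * |G x - G' x|
          rw [← mul_sub, abs_mul]
          exact mul_le_mul_of_nonneg_right (hC x) (abs_nonneg _)
    _ = C * ∫ x, |G x - G' x| ∂μ := integral_const_mul _ _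

/-- lower bound for all correlations of g -/
lemma corr_self_ge (hT : MeasurePreserving T μ μ) {g : X → ℝ} (hg : BM g) (n : ℕ) :
    -(∫ x, g x * g x ∂μ) ≤ corr μ T g g n := by
  have hTm := hT.measurable
  have h1 : 0 ≤ ∫ x, (g x + g (T^[n] x)) * (g x + g (T^[n] x)) ∂μ :=
    integral_nonneg (fun x => mul_self_nonneg _)
  have h2 : ∫ x, (g x + g (T^[n] x)) * (g x + g (T^[n] x)) ∂μ =
      ∫ x, g x * g x ∂μ + 2 * corr μ T g g n + ∫ x, g (T^[n] x) * g (T^[n] x) ∂μ := by
    unfold corr
    rw [← integral_const_mul, ← integral_add ((hg.mul hg).integrable μ)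
      (((hg.mul (hg.comp (hTm.iterate n))).cmul 2).integrable μ),
      ← integral_add (((hg.mul hg).add ((hg.mul (hg.comp (hTm.iterate n))).cmul 2)).integrable μ)
      (((hg.comp (hTm.iterate n)).mul (hg.comp (hTm.iterate n))).integrable μ)]
    congr 1
    ext x
    ring
  have h3 : ∫ x, g (T^[n] x) * g (T^[n] x) ∂μ = ∫ x, g x * g x ∂μ :=
    int_comp hT (hg.mul hg) n
  rw [h2, h3] at h1
  linarith

/-- small L1 norm from small L2 norm -/
lemma L1_le {h : X → ℝ} (hh : BM h) {δ : ℝ} (hδ : 0 < δ) (h2 : ∫ x, h x * h x ∂μ ≤ δ * δ) :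
    ∫ x, |h x| ∂μ ≤ δ := by
  have h1 : ∫ x, |h x| ∂μ ≤ ∫ x, ((1 / (2 * δ)) * (h x * h x) + δ / 2) ∂μ := by
    apply integral_mono
    · exact hh.abs.integrable μ
    · exact (((hh.mul hh).cmul _).add (BM.const _)).integrable μ
    · intro x
      show |h x| ≤ (1 / (2 * δ)) * (h x * h x) + δ / 2
      have e : (1 / (2 * δ)) * (h x * h x) + δ / 2 - |h x| = (1 / (2 * δ)) * (|h x| - δ) ^ 2 := by
        have : h x * h x = |h x| * |h x| := (abs_mul_abs_self _).symm
        rw [this]
        field_simp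
        ring
      have : 0 ≤ (1 / (2 * δ)) * (|h x| - δ) ^ 2 := by positivity
      linarith
  rw [integral_add (((hh.mul hh).cmul _).integrable μ) ((BM.const _).integrable μ),
    integral_const_mul] at h1
  simp only [integral_const, probReal_univ, smul_eq_mul, one_mul] at h1
  have h3 : (1 / (2 * δ)) * ∫ x, h x * h x ∂μ ≤ (1 / (2 * δ)) * (δ * δ) :=
    mul_le_mul_of_nonneg_left h2 (by positivity)
  have h4 : (1 / (2 * δ)) * (δ * δ) = δ / 2 := by field_simp
  linarith

end Pool.Agent.H293R3.OR
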