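import Pool.Agent.H293R3.OR3

set_option autoImplicit false
open MeasureTheory Filter Topology

namespace Pool.Agent.H293R3.OR

variable {X : Type*} [MeasurableSpace X] {μ : Measure X} [IsProbabilityMeasure μ] {T : X → X}

/-- spaced sum -/
noncomputable def ssum (T : X → X) (F : X → ℝ) (m d : ℕ) : X → ℝ :=
  fun x => ∑ j ∈ Finset.range m, F (T^[j * d] x)

lemma ssum_BM (hT : Measurable T) {F : X → ℝ} (hF : BM F) (m d : ℕ) : BM (ssum T F m d) :=
  BM.sum _ (fun j _ => hF.comp (hT.iterate (j * d)))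

lemma pair_le (hT : MeasurePreserving T μ μ) {F : X → ℝ} (hF : BM F) {C η : ℝ}
    (hC : ∀ x, |F x| ≤ C) {d : ℕ} (hη : ∀ n, d ≤ n → corr μ T F F n ≤ η) (i j : ℕ) :
    ∫ x, F (T^[i * d] x) * F (T^[j * d] x) ∂μ ≤ (if i = j then C * C else η) := by
  by_cases hij : i = j
  · subst hij
    rw [if_pos rfl]
    have h1 : ∫ x, F (T^[i * d] x) * F (T^[i * d] x) ∂μ ≤ ∫ _x : X, C * C ∂μ := by
      apply integral_mono
      · exact ((hF.comp (hT.measurable.iterate _)).mul (hF.comp (hT.measurable.iterate _))).integrable μ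
      · exact (BM.const _).integrable μ
      · intro x
        show F (T^[i * d] x) * F (T^[i * d] x) ≤ C * C
        have := hC (T^[i * d] x)
        rw [← abs_mul_abs_self]
        exact mul_le_mul this this (abs_nonneg _) ((abs_nonneg _).trans this)
    simpa using h1
  · rw [if_neg hij]
    rcases lt_or_gt_of_ne hij with h | h
    · obtain ⟨k, hk⟩ := Nat.exists_eq_add_of_lt h
      have h2 := corr_shift hT hF hF (i * d) ((k + 1) * d)
      have e : (k + 1) * d + i * d = j * d := by rw [hk]; ring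
      rw [e] at h2
      rw [h2]
      apply hη
      nlinarith
    · obtain ⟨k, hk⟩ := Nat.exists_eq_add_of_lt h
      have h2 := corr_shift hT hF hF (j * d) ((k + 1) * d)
      have e : (k + 1) * d + j * d = i * d := by rw [hk]; ring
      rw [e] at h2
      have h3 : ∫ x, F (T^[i * d] x) * F (T^[j * d] x) ∂μ =
          ∫ x, F (T^[j * d] x) * F (T^[i * d] x) ∂μ := by
        congr 1
        ext x
        ring
      rw [h3, h2]
      apply hη
      nlinarith

lemma ssum_sq (hT : MeasurePreserving T μ μ) {F : X → ℝ} (hF : BM F) {C η : ℝ}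
    (hC : ∀ x, |F x| ≤ C) (hη0 : 0 ≤ η) {d : ℕ} (hη : ∀ n, d ≤ n → corr μ T F F n ≤ η) (m : ℕ) :
    ∫ x, ssum T F m d x * ssum T F m d x ∂μ ≤ m * (C * C) + m * m * η := by
  have e : ∀ x, ssum T F m d x * ssum T F m d x =
      ∑ i ∈ Finset.range m, ∑ j ∈ Finset.range m, F (T^[i * d] x) * F (T^[j * d] x) := by
    intro x
    unfold ssum
    rw [Finset.sum_mul_sum]
  simp only [e]
  have hb : ∀ i j : ℕ, BM (fun x => F (T^[i * d] x) * F (T^[j * d] x)) := fun i j =>
    (hF.comp (hT.measurable.iterate _)).mul (hF.comp (hT.measurable.iterate _))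
  rw [integral_finset_sum _ (fun i _ => (BM.sum _ (fun j _ => hb i j)).integrable μ)]
  calc ∑ i ∈ Finset.range m, ∫ x, ∑ j ∈ Finset.range m, F (T^[i * d] x) * F (T^[j * d] x) ∂μ
      = ∑ i ∈ Finset.range m, ∑ j ∈ Finset.range m, ∫ x, F (T^[i * d] x) * F (T^[j * d] x) ∂μ := by
        apply Finset.sum_congr rfl
        intro i _
        rw [integral_finset_sum _ (fun j _ => (hb i j).integrable μ)]
    _ ≤ ∑ i ∈ Finset.range m, ∑ j ∈ Finset.range m, ((if i = j then C * C else 0) + η) := by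
        apply Finset.sum_le_sum
        intro i _
        apply Finset.sum_le_sum
        intro j _
        have := pair_le hT hF hC hη i j
        by_cases hij : i = j
        · rw [if_pos hij] at this ⊢
          linarith
        · rw [if_neg hij] at this ⊢
          linarith
    _ = m * (C * C) + m * m * η := by
        have h1 : ∀ i ∈ Finset.range m,
            ∑ j ∈ Finset.range m, ((if i = j then C * C else 0) + η) = C * C + m * η := by
          intro i hi
          rw [Finset.sum_add_distrib, Finset.sum_ite_eq, if_pos hi]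
          simp
        rw [Finset.sum_congr rfl h1]
        simp
        ring

lemma exists_L1_small (hT : MeasurePreserving T μ μ) {F : X → ℝ} (hF : BM F) {C : ℝ}
    (hC : ∀ x, |F x| ≤ C) (h0 : Tendsto (corr μ T F F) atTop (𝓝 0)) {δ : ℝ} (hδ : 0 < δ) :
    ∃ m d : ℕ, 0 < m ∧ ∫ x, |ssum T F m d x| ∂μ ≤ m * δ := by
  have hη : 0 < δ * δ / 2 := by positivity
  obtain ⟨d, hd⟩ := eventually_atTop.1 (h0.eventually (gt_mem_nhds hη))
  obtain ⟨m, hm⟩ := exists_nat_gt (2 * (C * C) / (δ * δ))
  have hm0 : 0 < m := by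
    by_contra h
    have : m = 0 := by omega
    rw [this] at hm
    have : 0 ≤ 2 * (C * C) / (δ * δ) := by
      apply div_nonneg _ (by positivity)
      nlinarith [mul_self_nonneg C]
    simp only [Nat.cast_zero] at hm
    linarith
  have hmR : (0 : ℝ) < m := by exact_mod_cast hm0
  refine ⟨m, d, hm0, ?_⟩
  apply L1_le (ssum_BM hT.measurable hF m d) (by positivity)
  have h1 := ssum_sq hT hF hC hη.le (fun n hn => (hd n hn).le) m
  have h2 : 2 * (C * C) < m * (δ * δ) := by
    rw [div_lt_iff₀ (by positivity)] at hm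
    exact hm
  have h3 : (m : ℝ) * (C * C) ≤ m * (m * (δ * δ) / 2) := by
    apply mul_le_mul_of_nonneg_left _ hmR.le
    linarith
  calc ∫ x, ssum T F m d x * ssum T F m d x ∂μ ≤ m * (C * C) + m * m * (δ * δ / 2) := h1
    _ ≤ m * (m * (δ * δ) / 2) + m * m * (δ * δ / 2) := by linarith
    _ = m * δ * (m * δ) := by ring

lemma cross_right (hT : MeasurePreserving T μ μ) {F g : X → ℝ} (hF : BM F) (hg : BM g) {C τ δ : ℝ}
    (hC : ∀ x, |F x| ≤ C) (hg1 : ∀ x, |g x| ≤ 1) (hC0 : 0 ≤ C)
    (hτ : ∫ x, |g (T x) - g x| ∂μ ≤ τ) (hτ0 : 0 ≤ τ) {m d : ℕ} (hm : 0 < m)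
    (hS : ∫ x, |ssum T F m d x| ∂μ ≤ m * δ) (n : ℕ) :
    |corr μ T F g n| ≤ δ + C * (m * d * τ) := by
  have hTm := hT.measurable
  have hmR : (0 : ℝ) < m := by exact_mod_cast hm
  have hj : ∀ j ∈ Finset.range m,
      |corr μ T F g n - ∫ x, F (T^[j * d] x) * g (T^[n] x) ∂μ| ≤ C * (m * d * τ) := by
    intro j hj
    rw [← corr_shift hT hF hg (j * d) n]
    have h1 := diff_bound (μ := μ) (hF.comp (hTm.iterate (j * d)))
      (hg.comp (hTm.iterate (n + j * d))) (hg.comp (hTm.iterate n)) (C := C) (fun x => hC _)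
    refine h1.trans ?_
    apply mul_le_mul_of_nonneg_left _ hC0
    refine (near_inv' hT hg hτ n (j * d)).trans ?_
    apply mul_le_mul_of_nonneg_right _ hτ0
    have : j ≤ m := (Finset.mem_range.1 hj).le
    push_cast
    apply mul_le_mul_of_nonneg_right _ (Nat.cast_nonneg _)
    exact_mod_cast this
  have hsum : |∑ j ∈ Finset.range m, (corr μ T F g n - ∫ x, F (T^[j * d] x) * g (T^[n] x) ∂μ)| ≤
      m * (C * (m * d * τ)) := by
    refine (Finset.abs_sum_le_sum_abs _ _).trans ?_
    refine (Finset.sum_le_sum hj).trans ?_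
    simp
  rw [Finset.sum_sub_distrib] at hsum
  simp only [Finset.sum_const, Finset.card_range, nsmul_eq_mul] at hsum
  have hS2 : |∑ j ∈ Finset.range m, ∫ x, F (T^[j * d] x) * g (T^[n] x) ∂μ| ≤ m * δ := by
    rw [← integral_finset_sum _ (fun j _ =>
      ((hF.comp (hTm.iterate (j * d))).mul (hg.comp (hTm.iterate n))).integrable μ)]
    refine abs_integral_le_integral_abs.trans ?_
    refine le_trans ?_ hS
    apply integral_mono
    · exact ((BM.sum _ (fun j _ =>
        ((hF.comp (hTm.iterate (j * d))).mul (hg.comp (hTm.iterate n))))).abs).integrable μ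
    · exact (ssum_BM hTm hF m d).abs.integrable μ
    · intro x
      show |∑ j ∈ Finset.range m, F (T^[j * d] x) * g (T^[n] x)| ≤ |ssum T F m d x|
      rw [← Finset.sum_mul, abs_mul]
      have := mul_le_mul_of_nonneg_left (hg1 (T^[n] x)) (abs_nonneg (∑ j ∈ Finset.range m, F (T^[j * d] x)))
      rw [mul_one] at this
      exact this
  have h5 : |(m : ℝ) * corr μ T F g n| ≤ m * (C * (m * d * τ)) + m * δ := by
    have := abs_sub_abs_le_abs_sub ((m : ℝ) * corr μ T F g n)
      (∑ j ∈ Finset.range m, ∫ x, F (T^[j * d] x) * g (T^[n] x) ∂μ)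
    linarith
  rw [abs_mul, abs_of_pos hmR] at h5
  have h6 : (m : ℝ) * |corr μ T F g n| ≤ m * (δ + C * (m * d * τ)) := by
    calc (m : ℝ) * |corr μ T F g n| ≤ m * (C * (m * d * τ)) + m * δ := h5
      _ = m * (δ + C * (m * d * τ)) := by ring
  exact le_of_mul_le_mul_left h6 hmR

lemma cross_left (hT : MeasurePreserving T μ μ) {F g : X → ℝ} (hF : BM F) (hg : BM g) {C τ δ : ℝ}
    (hC : ∀ x, |F x| ≤ C) (hg1 : ∀ x, |g x| ≤ 1) (hC0 : 0 ≤ C)
    (hτ : ∫ x, |g (T x) - g x| ∂μ ≤ τ) (hτ0 : 0 ≤ τ) {m d : ℕ} (hm : 0 < m)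
    (hS : ∫ x, |ssum T F m d x| ∂μ ≤ m * δ) (n : ℕ) :
    |corr μ T g F n| ≤ δ + C * (m * d * τ) := by
  have hTm := hT.measurable
  have hmR : (0 : ℝ) < m := by exact_mod_cast hm
  have hj : ∀ j ∈ Finset.range m,
      |corr μ T g F n - ∫ x, F (T^[n + j * d] x) * g x ∂μ| ≤ C * (m * d * τ) := by
    intro j hj
    rw [← corr_shift hT hg hF (j * d) n]
    have h1 := diff_bound (μ := μ) (hF.comp (hTm.iterate (n + j * d)))
      (hg.comp (hTm.iterate (j * d))) hg (C := C) (fun x => hC _)
    have e : ∫ x, g (T^[j * d] x) * F (T^[n + j * d] x) ∂μ =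
        ∫ x, F (T^[n + j * d] x) * g (T^[j * d] x) ∂μ := by
      congr 1
      ext x
      ring
    rw [e]
    refine h1.trans ?_
    apply mul_le_mul_of_nonneg_left _ hC0
    refine (near_inv hT hg hτ (j * d)).trans ?_
    apply mul_le_mul_of_nonneg_right _ hτ0
    have : j ≤ m := (Finset.mem_range.1 hj).le
    push_cast
    apply mul_le_mul_of_nonneg_right _ (Nat.cast_nonneg _)
    exact_mod_cast this
  have hsum : |∑ j ∈ Finset.range m, (corr μ T g F n - ∫ x, F (T^[n + j * d] x) * g x ∂μ)| ≤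
      m * (C * (m * d * τ)) := by
    refine (Finset.abs_sum_le_sum_abs _ _).trans ?_
    refine (Finset.sum_le_sum hj).trans ?_
    simp
  rw [Finset.sum_sub_distrib] at hsum
  simp only [Finset.sum_const, Finset.card_range, nsmul_eq_mul] at hsum
  have hS' : ∫ x, |ssum T F m d (T^[n] x)| ∂μ ≤ m * δ := by
    rw [int_comp hT (ssum_BM hTm hF m d).abs n]
    exact hS
  have hS2 : |∑ j ∈ Finset.range m, ∫ x, F (T^[n + j * d] x) * g x ∂μ| ≤ m * δ := by
    rw [← integral_finset_sum _ (fun j _ =>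
      ((hF.comp (hTm.iterate (n + j * d))).mul hg).integrable μ)]
    refine abs_integral_le_integral_abs.trans ?_
    refine le_trans ?_ hS'
    apply integral_mono
    · exact ((BM.sum _ (fun j _ =>
        ((hF.comp (hTm.iterate (n + j * d))).mul hg))).abs).integrable μ
    · exact ((ssum_BM hTm hF m d).comp (hTm.iterate n)).abs.integrable μ
    · intro x
      show |∑ j ∈ Finset.range m, F (T^[n + j * d] x) * g x| ≤ |ssum T F m d (T^[n] x)|
      have e : ssum T F m d (T^[n] x) = ∑ j ∈ Finset.range m, F (T^[n + j * d] x) := by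
        unfold ssum
        apply Finset.sum_congr rfl
        intro j _
        rw [← Function.iterate_add_apply, Nat.add_comm n (j * d)]
      rw [← Finset.sum_mul, abs_mul, e]
      have := mul_le_mul_of_nonneg_left (hg1 x) (abs_nonneg (∑ j ∈ Finset.range m, F (T^[n + j * d] x)))
      rw [mul_one] at this
      exact this
  have h5 : |(m : ℝ) * corr μ T g F n| ≤ m * (C * (m * d * τ)) + m * δ := by
    have := abs_sub_abs_le_abs_sub ((m : ℝ) * corr μ T g F n)
      (∑ j ∈ Finset.range m, ∫ x, F (T^[n + j * d] x) * g x ∂μ)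
    linarith
  rw [abs_mul, abs_of_pos hmR] at h5
  have h6 : (m : ℝ) * |corr μ T g F n| ≤ m * (δ + C * (m * d * τ)) := by
    calc (m : ℝ) * |corr μ T g F n| ≤ m * (C * (m * d * τ)) + m * δ := h5
      _ = m * (δ + C * (m * d * τ)) := by ring
  exact le_of_mul_le_mul_left h6 hmR

end Pool.Agent.H293R3.OR
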