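import Pool.Agent.H293R3.OR4

set_option autoImplicit false
open MeasureTheory Filter Topology

namespace Pool.Agent.H293R3.OR

variable {X : Type*} [MeasurableSpace X] {μ : Measure X} [IsProbabilityMeasure μ] {T : X → X}

/-- indicator as a function -/
noncomputable def ind (A : Set X) : X → ℝ := fun x => A.indicator (fun _ => (1 : ℝ)) x

structure Good (μ : Measure X) (T : X → X) (F : X → ℝ) : Prop where
  bm : BM F
  int0 : ∫ x, F x ∂μ = 0
  right : ∀ B : Set X, MeasurableSet B → Tendsto (corr μ T F (ind B)) atTop (𝓝 0)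
  left : ∀ B : Set X, MeasurableSet B → Tendsto (corr μ T (ind B) F) atTop (𝓝 0)
  self : Tendsto (corr μ T F F) atTop (𝓝 0)

lemma good_zero : Good μ T (fun _ => 0) := by
  refine ⟨BM.const 0, by simp, ?_, ?_, ?_⟩
  · intro B _
    have : corr μ T (fun _ => 0) (ind B) = fun _ => 0 := by
      ext n; simp [corr]
    rw [this]; exact tendsto_const_nhds
  · intro B _
    have : corr μ T (ind B) (fun _ => 0) = fun _ => 0 := by
      ext n; simp [corr]
    rw [this]; exact tendsto_const_nhds
  · have : corr μ T (fun _ => 0) (fun _ => 0) = fun _ => 0 := by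
      ext n; simp [corr]
    rw [this]; exact tendsto_const_nhds

lemma corr_ind (hT : Measurable T) {A B : Set X} (hA : MeasurableSet A) (hB : MeasurableSet B) (n : ℕ) :
    corr μ T (ind A) (ind B) n = μ.real (A ∩ T^[n] ⁻¹' B) := by
  rw [← int_ind (μ := μ) (hA.inter (hT.iterate n hB))]
  unfold corr ind
  congr 1
  ext x
  by_cases h1 : x ∈ A <;> by_cases h2 : T^[n] x ∈ B
  · rw [Set.indicator_of_mem h1, Set.indicator_of_mem h2, Set.indicator_of_mem (show x ∈ A ∩ T^[n] ⁻¹' B from ⟨h1, h2⟩)]; ring
  · rw [Set.indicator_of_mem h1, Set.indicator_of_notMem h2, Set.indicator_of_notMem (fun h => h2 h.2)]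
    ring
  · rw [Set.indicator_of_notMem h1, Set.indicator_of_mem h2, Set.indicator_of_notMem (fun h => h1 h.1)]
    ring
  · rw [Set.indicator_of_notMem h1, Set.indicator_of_notMem h2, Set.indicator_of_notMem (fun h => h1 h.1)]
    ring

lemma cen_eq (A : Set X) : cen μ A = fun x => ind A x + (-1) * μ.real A := by
  ext x; unfold cen ind; ring

lemma ind_BM {A : Set X} (hA : MeasurableSet A) : BM (ind A) := BM.indicator hA

lemma corr_const_right (F : X → ℝ) (c : ℝ) (n : ℕ) :
    corr μ T F (fun _ => c) n = c * ∫ x, F x ∂μ := by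
  unfold corr
  rw [integral_mul_const, mul_comm]

lemma corr_const_left (hT : MeasurePreserving T μ μ) {F : X → ℝ} (hF : BM F) (c : ℝ) (n : ℕ) :
    corr μ T (fun _ => c) F n = c * ∫ x, F x ∂μ := by
  unfold corr
  rw [integral_const_mul, int_comp hT hF n]

lemma corr_cen_right (hT : MeasurePreserving T μ μ) {F : X → ℝ} (hF : BM F) {A : Set X}
    (hA : MeasurableSet A) (n : ℕ) :
    corr μ T F (cen μ A) n = corr μ T F (ind A) n - μ.real A * ∫ x, F x ∂μ := by
  rw [cen_eq, corr_add_right hT.measurable hF (ind_BM hA) (BM.const _), corr_const_right]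
  ring

lemma corr_cen_left (hT : MeasurePreserving T μ μ) {F : X → ℝ} (hF : BM F) {A : Set X}
    (hA : MeasurableSet A) (n : ℕ) :
    corr μ T (cen μ A) F n = corr μ T (ind A) F n - μ.real A * ∫ x, F x ∂μ := by
  rw [cen_eq, corr_add_left hT.measurable (ind_BM hA) (BM.const _) hF, corr_const_left hT hF]
  ring

lemma good_add (hT : MeasurePreserving T μ μ) (hM : Mix μ T) {F : X → ℝ} (hF : Good μ T F)
    {A : Set X} (hA : MeasurableSet A) (c : ℝ) :
    Good μ T (fun x => F x + c * cen μ A x) := by
  have hTm := hT.measurable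
  have hg := cen_BM (μ := μ) hA
  -- correlations of cen A
  have g_right : ∀ B : Set X, MeasurableSet B →
      Tendsto (corr μ T (cen μ A) (ind B)) atTop (𝓝 0) := by
    intro B hB
    have e : corr μ T (cen μ A) (ind B) =
        fun n => μ.real (A ∩ T^[n] ⁻¹' B) - μ.real A * μ.real B := by
      ext n
      rw [corr_cen_left hT (ind_BM hB) hA, corr_ind hTm hA hB]
      have : ∫ x, ind B x ∂μ = μ.real B := int_ind hB
      rw [this]
    rw [e]
    have := (hM A B hA hB).sub_const (μ.real A * μ.real B)
    rwa [sub_self] at this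
  have g_left : ∀ B : Set X, MeasurableSet B →
      Tendsto (corr μ T (ind B) (cen μ A)) atTop (𝓝 0) := by
    intro B hB
    have e : corr μ T (ind B) (cen μ A) =
        fun n => μ.real (B ∩ T^[n] ⁻¹' A) - μ.real B * μ.real A := by
      ext n
      rw [corr_cen_right hT (ind_BM hB) hA, corr_ind hTm hB hA]
      have : ∫ x, ind B x ∂μ = μ.real B := int_ind hB
      rw [this, mul_comm (μ.real A)]
    rw [e]
    have := (hM B A hB hA).sub_const (μ.real B * μ.real A)
    rwa [sub_self] at this
  have g_self : Tendsto (corr μ T (cen μ A) (cen μ A)) atTop (𝓝 0) := by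
    have e : corr μ T (cen μ A) (cen μ A) = corr μ T (cen μ A) (ind A) := by
      ext n
      rw [corr_cen_right hT hg hA, cen_int hA]
      ring
    rw [e]; exact g_right A hA
  have Fg : Tendsto (corr μ T F (cen μ A)) atTop (𝓝 0) := by
    have e : corr μ T F (cen μ A) = corr μ T F (ind A) := by
      ext n
      rw [corr_cen_right hT hF.bm hA, hF.int0]
      ring
    rw [e]; exact hF.right A hA
  have gF : Tendsto (corr μ T (cen μ A) F) atTop (𝓝 0) := by
    have e : corr μ T (cen μ A) F = corr μ T (ind A) F := by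
      ext n
      rw [corr_cen_left hT hF.bm hA, hF.int0]
      ring
    rw [e]; exact hF.left A hA
  refine ⟨hF.bm.add (hg.cmul c), ?_, ?_, ?_, ?_⟩
  · rw [integral_add (hF.bm.integrable μ) ((hg.cmul c).integrable μ), integral_const_mul,
      cen_int hA, hF.int0]
    ring
  · intro B hB
    have e : corr μ T (fun x => F x + c * cen μ A x) (ind B) =
        fun n => corr μ T F (ind B) n + c * corr μ T (cen μ A) (ind B) n := by
      ext n
      rw [corr_add_left hTm hF.bm (hg.cmul c) (ind_BM hB), corr_cmul_left]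
    rw [e]
    have := (hF.right B hB).add ((g_right B hB).const_mul c)
    simpa using this
  · intro B hB
    have e : corr μ T (ind B) (fun x => F x + c * cen μ A x) =
        fun n => corr μ T (ind B) F n + c * corr μ T (ind B) (cen μ A) n := by
      ext n
      rw [corr_add_right hTm (ind_BM hB) hF.bm (hg.cmul c), corr_cmul_right]
    rw [e]
    have := (hF.left B hB).add ((g_left B hB).const_mul c)
    simpa using this
  · have e : corr μ T (fun x => F x + c * cen μ A x) (fun x => F x + c * cen μ A x) =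
        fun n => corr μ T F F n + c * corr μ T F (cen μ A) n + (c * corr μ T (cen μ A) F n +
          c * (c * corr μ T (cen μ A) (cen μ A) n)) := by
      ext n
      rw [corr_add_left hTm hF.bm (hg.cmul c) (hF.bm.add (hg.cmul c)),
        corr_add_right hTm hF.bm hF.bm (hg.cmul c), corr_cmul_right, corr_cmul_left,
        corr_add_right hTm hg hF.bm (hg.cmul c), corr_cmul_right]
      ring
    rw [e]
    have := (hF.self.add (Fg.const_mul c)).add
      ((gF.const_mul c).add ((g_self.const_mul c).const_mul c))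
    simpa using this

lemma corr_expand (hT : MeasurePreserving T μ μ) {F g : X → ℝ} (hF : BM F) (hg : BM g) (c : ℝ)
    (n : ℕ) :
    corr μ T (fun x => F x + c * g x) (fun x => F x + c * g x) n =
      corr μ T F F n + c * (corr μ T F g n + corr μ T g F n) + c * c * corr μ T g g n := by
  have hTm := hT.measurable
  rw [corr_add_left hTm hF (hg.cmul c) (hF.add (hg.cmul c)),
    corr_add_right hTm hF hF (hg.cmul c), corr_cmul_right, corr_cmul_left,
    corr_add_right hTm hg hF (hg.cmul c), corr_cmul_right]
  ring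

/-- the inductive step -/
lemma step (hT : MeasurePreserving T μ μ) (hM : Mix μ T)
    (h0 : ∃ A : Set X, MeasurableSet A ∧ 0 < μ.real A ∧ μ.real A < 1)
    {F : X → ℝ} (hF : Good μ T F) {c s : ℝ} (hc : 0 < c) (hs : s ≤ 9 / 8 * (c * c))
    (hinv : ∀ n, -(s / 2) ≤ corr μ T F F n) :
    ∃ A : Set X, MeasurableSet A ∧
      (∀ n, -(c * c / 2) ≤ corr μ T (fun x => F x + c * cen μ A x) (fun x => F x + c * cen μ A x) n) ∧
      corr μ T F F 0 + c * c / 16 ≤
        corr μ T (fun x => F x + c * cen μ A x) (fun x => F x + c * cen μ A x) 0 := by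
  obtain ⟨C, hC⟩ := hF.bm.2
  have hC0 : 0 ≤ C := by
    have : Nonempty X := by
      by_contra hne
      rw [not_nonempty_iff] at hne
      obtain ⟨A, _, hA, _⟩ := h0
      have : A = ∅ := Set.eq_empty_of_isEmpty A
      rw [this] at hA
      simp at hA
    exact (abs_nonneg _).trans (hC (Classical.arbitrary X))
  obtain ⟨m, d, hm, hS⟩ := exists_L1_small hT hF.bm hC hF.self (show (0 : ℝ) < c / 64 by positivity)
  have hη : (0 : ℝ) < c * c / 32 := by positivity
  obtain ⟨L, hL⟩ := eventually_atTop.1 (hF.self.eventually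
    (lt_mem_nhds (show -(c * c / 32) < 0 by linarith)))
  -- choose tau
  set D : ℝ := C * (m * d * 2) + 1 with hD
  have hD1 : 0 < D := by
    have : 0 ≤ C * ((m : ℝ) * d * 2) := by positivity
    linarith
  set τ0 : ℝ := min (min (c / 64 / D) (1 / (32 * (L + 1)))) (1 / 4) with hτ0
  have hτ0pos : 0 < τ0 := by
    rw [hτ0]
    refine lt_min (lt_min (by positivity) (by positivity)) (by norm_num)
  obtain ⟨B, hB, hB0, hBτ⟩ := small_set hT hM h0 hτ0pos
  obtain ⟨K, hK1, hK2⟩ := exists_half hT hM hB hB0
  have hA := un_meas hT.measurable hB K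
  set A := un T B K with hAdef
  have hb1 : μ.real B ≤ c / 64 / D := hBτ.trans ((min_le_left _ _).trans (min_le_left _ _))
  have hb2 : μ.real B ≤ 1 / (32 * (L + 1)) := hBτ.trans ((min_le_left _ _).trans (min_le_right _ _))
  have hb3 : μ.real B ≤ 1 / 4 := hBτ.trans (min_le_right _ _)
  have hg := cen_BM (μ := μ) hA
  have hg1 := cen_abs_le (μ := μ) A
  -- near invariance
  have hni : ∫ x, |cen μ A (T x) - cen μ A x| ∂μ ≤ 2 * μ.real B := by
    have h1 : ∫ x, |cen μ A (T x) - cen μ A x| ∂μ ≤ ∫ x, (ind B x + ind B (T^[K] x)) ∂μ := by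
      apply integral_mono
      · exact ((hg.comp hT.measurable).sub hg).abs.integrable μ
      · exact ((ind_BM hB).add ((ind_BM hB).comp (hT.measurable.iterate K))).integrable μ
      · intro x
        have := un_step (T := T) B K x
        show |cen μ A (T x) - cen μ A x| ≤ ind B x + ind B (T^[K] x)
        unfold cen ind
        rw [sub_sub_sub_cancel_right]
        exact this
    rw [integral_add ((ind_BM hB).integrable μ)
      (((ind_BM hB).comp (hT.measurable.iterate K)).integrable μ), int_comp hT (ind_BM hB) K] at h1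
    have h2 : ∫ x, ind B x ∂μ = μ.real B := int_ind hB
    rw [h2] at h1
    linarith
  have hτn : (0 : ℝ) ≤ 2 * μ.real B := by linarith
  have hcross : C * (m * d * (2 * μ.real B)) ≤ c / 64 := by
    have h1 : C * (m * d * (2 * μ.real B)) ≤ D * μ.real B := by
      have : C * ((m : ℝ) * d * (2 * μ.real B)) = (C * (m * d * 2)) * μ.real B := by ring
      rw [this]
      apply mul_le_mul_of_nonneg_right _ hB0.le
      rw [hD]; linarith
    have h2 : D * μ.real B ≤ D * (c / 64 / D) := mul_le_mul_of_nonneg_left hb1 hD1.le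
    have h3 : D * (c / 64 / D) = c / 64 := by field_simp
    linarith
  have hr : ∀ n, |corr μ T F (cen μ A) n| ≤ c / 32 := by
    intro n
    have := cross_right hT hF.bm hg hC hg1 hC0 hni hτn hm hS n
    linarith
  have hl : ∀ n, |corr μ T (cen μ A) F n| ≤ c / 32 := by
    intro n
    have := cross_left hT hF.bm hg hC hg1 hC0 hni hτn hm hS n
    linarith
  have hsq : ∫ x, cen μ A x * cen μ A x ∂μ = μ.real A - μ.real A * μ.real A := cen_sq hA
  have hsq_le : ∫ x, cen μ A x * cen μ A x ∂μ ≤ 1 / 4 := by
    rw [hsq]; nlinarith [sq_nonneg (μ.real A - 1 / 2)]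
  have hsq_ge : 3 / 16 ≤ ∫ x, cen μ A x * cen μ A x ∂μ := by
    rw [hsq]
    have h1 : μ.real A ≤ 3 / 4 := by linarith
    nlinarith
  have hcr : ∀ n, -(c * c / 16) ≤ c * (corr μ T F (cen μ A) n + corr μ T (cen μ A) F n) := by
    intro n
    have h1 := (abs_le.1 (hr n)).1
    have h2 := (abs_le.1 (hl n)).1
    have h3 : -(c / 16) ≤ corr μ T F (cen μ A) n + corr μ T (cen μ A) F n := by linarith
    have := mul_le_mul_of_nonneg_left h3 hc.le
    calc -(c * c / 16) = c * -(c / 16) := by ring
      _ ≤ _ := this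
  have hgg : ∀ n, -(1 / 4) ≤ corr μ T (cen μ A) (cen μ A) n := by
    intro n
    have := corr_self_ge hT hg n
    linarith
  have hggL : ∀ n, n ≤ L → 1 / 8 ≤ corr μ T (cen μ A) (cen μ A) n := by
    intro n hn
    have h1 := diff_bound (μ := μ) hg (hg.comp (hT.measurable.iterate n)) hg (C := 1) hg1
    have h2 := near_inv hT hg hni n
    have h3 : (n : ℝ) * (2 * μ.real B) ≤ 1 / 16 := by
      have hLr : (0 : ℝ) < L + 1 := by positivity
      have hnL : (n : ℝ) ≤ L + 1 := by
        have : (n : ℝ) ≤ L := by exact_mod_cast hn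
        linarith
      calc (n : ℝ) * (2 * μ.real B) ≤ (L + 1) * (2 * (1 / (32 * (L + 1)))) := by
            apply mul_le_mul hnL _ hτn hLr.le
            linarith
        _ = 1 / 16 := by field_simp; norm_num
    have h4 : |corr μ T (cen μ A) (cen μ A) n - ∫ x, cen μ A x * cen μ A x ∂μ| ≤ 1 / 16 := by
      unfold corr
      refine h1.trans ?_
      rw [one_mul]
      exact h2.trans h3
    have h5 := (abs_le.1 h4).1
    linarith
  have hcc : 0 < c * c := mul_pos hc hc
  refine ⟨A, hA, ?_, ?_⟩
  · intro n
    rw [corr_expand hT hF.bm hg]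
    have h1 := hcr n
    rcases le_total L n with h | h
    · have h2 := (hL n h).le
      have h3 := mul_le_mul_of_nonneg_left (hgg n) hcc.le
      linarith
    · have h2 := hinv n
      have h3 := mul_le_mul_of_nonneg_left (hggL n h) hcc.le
      linarith
  · rw [corr_expand hT hF.bm hg]
    have h1 := hcr 0
    have h2 : corr μ T (cen μ A) (cen μ A) 0 = ∫ x, cen μ A x * cen μ A x ∂μ := by
      unfold corr
      simp
    have h3 : c * c * (3 / 16) ≤ c * c * corr μ T (cen μ A) (cen μ A) 0 := by
      rw [h2]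
      exact mul_le_mul_of_nonneg_left hsq_ge hcc.le
    linarith

end Pool.Agent.H293R3.OR
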