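import Pool.Agent.H293R3.OR5

set_option autoImplicit false
open MeasureTheory Filter Topology

namespace Pool.Agent.H293R3.OR

variable {X : Type*} [MeasurableSpace X] {μ : Measure X} [IsProbabilityMeasure μ] {T : X → X}

/-- the ratio -/
noncomputable def qq : ℝ := 19 / 20

/-- states of the construction -/
def St (μ : Measure X) (T : X → X) (k : ℕ) : Type _ :=
  {F : X → ℝ // Good μ T F ∧ ∀ n, -((qq ^ k * qq ^ k) / 2) ≤ corr μ T F F n}

lemma next_exists (hT : MeasurePreserving T μ μ) (hM : Mix μ T)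
    (h0 : ∃ A : Set X, MeasurableSet A ∧ 0 < μ.real A ∧ μ.real A < 1) (k : ℕ) (F : St μ T k) :
    ∃ F' : St μ T (k + 1), (∀ x, |F'.1 x - F.1 x| ≤ qq * qq ^ k) ∧
      corr μ T F.1 F.1 0 + qq ^ (k + 1) * qq ^ (k + 1) / 16 ≤ corr μ T F'.1 F'.1 0 := by
  have hq : (0 : ℝ) < qq := by unfold qq; norm_num
  have hc : (0 : ℝ) < qq ^ (k + 1) := pow_pos hq _
  have hs : qq ^ k * qq ^ k ≤ 9 / 8 * (qq ^ (k + 1) * qq ^ (k + 1)) := by
    have h1 : (0 : ℝ) < qq ^ k * qq ^ k := mul_pos (pow_pos hq _) (pow_pos hq _)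
    have h2 : qq ^ (k + 1) * qq ^ (k + 1) = (qq * qq) * (qq ^ k * qq ^ k) := by ring
    rw [h2]
    have h3 : (1 : ℝ) ≤ 9 / 8 * (qq * qq) := by unfold qq; norm_num
    calc qq ^ k * qq ^ k = 1 * (qq ^ k * qq ^ k) := by ring
      _ ≤ (9 / 8 * (qq * qq)) * (qq ^ k * qq ^ k) := mul_le_mul_of_nonneg_right h3 h1.le
      _ = _ := by ring
  obtain ⟨A, hA, h1, h2⟩ := step hT hM h0 F.2.1 hc hs F.2.2
  refine ⟨⟨fun x => F.1 x + qq ^ (k + 1) * cen μ A x, good_add hT hM F.2.1 hA _, h1⟩, ?_, h2⟩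
  intro x
  show |F.1 x + qq ^ (k + 1) * cen μ A x - F.1 x| ≤ qq * qq ^ k
  have e : F.1 x + qq ^ (k + 1) * cen μ A x - F.1 x = qq ^ (k + 1) * cen μ A x := by ring
  rw [e, abs_mul, abs_of_pos hc]
  have := mul_le_mul_of_nonneg_left (cen_abs_le (μ := μ) A x) hc.le
  calc qq ^ (k + 1) * |cen μ A x| ≤ qq ^ (k + 1) * 1 := this
    _ = qq * qq ^ k := by ring

theorem main_exists (hT : MeasurePreserving T μ μ) (hM : Mix μ T)
    (h0 : ∃ A : Set X, MeasurableSet A ∧ 0 < μ.real A ∧ μ.real A < 1) :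
    ∃ f : X → ℝ, BM f ∧ ∫ x, f x ∂μ = 0 ∧ (∀ n, 0 ≤ corr μ T f f n) ∧ 0 < corr μ T f f 0 := by
  have hq : (0 : ℝ) < qq := by unfold qq; norm_num
  have hq1 : (qq : ℝ) < 1 := by unfold qq; norm_num
  choose nxt hnxt1 hnxt2 using next_exists hT hM h0
  let F0 : St μ T 0 := ⟨fun _ => 0, good_zero, fun n => by
    have : corr μ T (fun _ => 0) (fun _ => 0) n = 0 := by simp [corr]
    rw [this]; norm_num⟩
  let S : (k : ℕ) → St μ T k := fun k => Nat.rec (motive := St μ T) F0 nxt k
  have hS : ∀ k, S (k + 1) = nxt k (S k) := fun k => rfl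
  have hS0 : S 0 = F0 := rfl
  let F : ℕ → X → ℝ := fun k => (S k).1
  have hd : ∀ x k, dist (F k x) (F (k + 1) x) ≤ qq * qq ^ k := by
    intro x k
    rw [Real.dist_eq, abs_sub_comm]
    exact hnxt1 k (S k) x
  have hcauchy : ∀ x, ∃ a, Tendsto (fun k => F k x) atTop (𝓝 a) := fun x =>
    cauchySeq_tendsto_of_complete (cauchySeq_of_le_geometric qq qq hq1 (hd x))
  choose f hf using hcauchy
  have hbound : ∀ x k, |F k x - f x| ≤ qq * qq ^ k / (1 - qq) := by
    intro x k
    have := dist_le_of_le_geometric_of_tendsto qq qq hq1 (hd x) (hf x) k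
    rwa [Real.dist_eq] at this
  have hfb : ∀ x, |f x| ≤ 19 := by
    intro x
    have := hbound x 0
    have e : F 0 x = 0 := rfl
    rw [e, zero_sub, abs_neg] at this
    refine this.trans ?_
    unfold qq
    norm_num
  have hFb : ∀ k x, |F k x| ≤ 38 := by
    intro k x
    have h1 := hbound x k
    have h2 := hfb x
    have h3 : qq * qq ^ k / (1 - qq) ≤ 19 := by
      have h4 : qq ^ k ≤ 1 := pow_le_one₀ hq.le hq1.le
      have h5 : qq * qq ^ k ≤ qq * 1 := mul_le_mul_of_nonneg_left h4 hq.le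
      rw [div_le_iff₀ (by linarith)]
      refine h5.trans ?_
      unfold qq; norm_num
    have h6 : F k x = (F k x - f x) + f x := by ring
    rw [h6]
    refine (abs_add_le _ _).trans ?_
    linarith
  have hFm : ∀ k, BM (F k) := fun k => (S k).2.1.bm
  have hfm : Measurable f := measurable_of_tendsto_metrizable (fun k => (hFm k).1)
    (tendsto_pi_nhds.2 hf)
  have hfBM : BM f := ⟨hfm, 19, hfb⟩
  have hTm := hT.measurable
  have hint : ∫ x, f x ∂μ = 0 := by
    have h1 : Tendsto (fun k => ∫ x, F k x ∂μ) atTop (𝓝 (∫ x, f x ∂μ)) := by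
      apply tendsto_integral_of_dominated_convergence (fun _ => (38 : ℝ))
      · intro k; exact (hFm k).1.aestronglyMeasurable
      · exact integrable_const _
      · intro k; exact Eventually.of_forall (fun x => by rw [Real.norm_eq_abs]; exact hFb k x)
      · exact Eventually.of_forall hf
    have h2 : ∀ k, ∫ x, F k x ∂μ = 0 := fun k => (S k).2.1.int0
    simp only [h2] at h1
    exact (tendsto_nhds_unique h1 tendsto_const_nhds)
  have hcorr : ∀ n, Tendsto (fun k => corr μ T (F k) (F k) n) atTop (𝓝 (corr μ T f f n)) := by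
    intro n
    unfold corr
    apply tendsto_integral_of_dominated_convergence (fun _ => (38 * 38 : ℝ))
    · intro k
      exact ((hFm k).mul ((hFm k).comp (hTm.iterate n))).1.aestronglyMeasurable
    · exact integrable_const _
    · intro k
      refine Eventually.of_forall (fun x => ?_)
      rw [Real.norm_eq_abs, abs_mul]
      exact mul_le_mul (hFb k x) (hFb k _) (abs_nonneg _) (by norm_num)
    · exact Eventually.of_forall (fun x => (hf x).mul (hf _))
  refine ⟨f, hfBM, hint, ?_, ?_⟩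
  · intro n
    have h1 : ∀ k, -((qq ^ k * qq ^ k) / 2) ≤ corr μ T (F k) (F k) n := fun k => (S k).2.2 n
    have h2 : Tendsto (fun k : ℕ => -((qq ^ k * qq ^ k) / 2)) atTop (𝓝 (-((0 * 0) / 2))) :=
      (((tendsto_pow_atTop_nhds_zero_of_lt_one hq.le hq1).mul
        (tendsto_pow_atTop_nhds_zero_of_lt_one hq.le hq1)).div_const 2).neg
    have h3 : (-((0 * 0) / 2) : ℝ) = 0 := by norm_num
    rw [h3] at h2
    exact le_of_tendsto_of_tendsto' h2 (hcorr n) h1
  · have h1 : ∀ k, qq * qq / 16 ≤ corr μ T (F (k + 1)) (F (k + 1)) 0 := by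
      intro k
      induction k with
      | zero =>
        have := hnxt2 0 (S 0)
        have e : corr μ T (S 0).1 (S 0).1 0 = 0 := by
          show corr μ T (fun _ => 0) (fun _ => 0) 0 = 0
          simp [corr]
        rw [e] at this
        have e2 : (nxt 0 (S 0)).1 = F 1 := rfl
        rw [e2] at this
        simpa using this
      | succ k ih =>
        have := hnxt2 (k + 1) (S (k + 1))
        have e2 : (nxt (k + 1) (S (k + 1))).1 = F (k + 1 + 1) := rfl
        have e1 : (S (k + 1)).1 = F (k + 1) := rfl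
        rw [e2, e1] at this
        have hp : 0 ≤ qq ^ (k + 1 + 1) * qq ^ (k + 1 + 1) / 16 := by positivity
        linarith
    have h2 := ge_of_tendsto' ((tendsto_add_atTop_iff_nat 1).2 (hcorr 0)) h1
    have h3 : (0 : ℝ) < qq * qq / 16 := by positivity
    linarith

end Pool.Agent.H293R3.OR
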